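import Mathlib

/-! A limsup set of balls: a bound for the Hausdorff dimension by counting the balls of each scale. -/

set_option autoImplicit false

open Finset Filter Topology MeasureTheory

namespace Run7.h467.GA

open scoped ENNReal NNReal

/-- If every point of `A` lies in balls of radius `r j`, with centre in a finite family `N j`, for infinitely many `j`,
and the sum of `#(N j) (2 r j) ^ D` converges, then the dimension of `A` is at most `D`. -/
theorem dim_cover {X : Type*} [EMetricSpace X] {ι : Type} (N : ℕ → Finset ι)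
    (c : ℕ → ι → X) (r : ℕ → ℝ) (hr0 : ∀ j, 0 < r j) (hr : Tendsto r atTop (𝓝 0)) (D : ℝ) (hD : 0 < D)
    (w : ℕ → ℝ) (hw : Summable w) (hcard : ∀ j, ((N j).card : ℝ) * (2 * r j) ^ D ≤ w j) (A : Set X)
    (hA : ∀ a ∈ A, ∀ n : ℕ, ∃ j : ℕ, n ≤ j ∧ ∃ z ∈ N j, edist a (c j z) ≤ ENNReal.ofReal (r j)) :
    dimH A ≤ ENNReal.ofReal D := by
  borelize X
  have hDn : ((Real.toNNReal D : ℝ≥0) : ℝ) = D := Real.coe_toNNReal D hD.le
  have hgoal : ENNReal.ofReal D = ((Real.toNNReal D : ℝ≥0) : ℝ≥0∞) := rfl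
  rw [hgoal]
  apply dimH_le_of_hausdorffMeasure_ne_top
  rw [hDn]
  have hw0 : ∀ j, 0 ≤ w j := fun j =>
    le_trans (mul_nonneg (Nat.cast_nonneg _) (Real.rpow_nonneg (by linarith [hr0 j]) _)) (hcard j)
  have hr' : ∀ ε : ℝ≥0∞, 0 < ε → ∃ n0 : ℕ, ∀ n : ℕ, n0 ≤ n → ENNReal.ofReal (2 * r n) ≤ ε := by
    intro ε hε
    have h0 : Tendsto (fun n => 2 * r n) atTop (𝓝 0) := by
      have := hr.const_mul 2
      rwa [mul_zero] at this
    have h1 := ENNReal.tendsto_ofReal h0
    rw [ENNReal.ofReal_zero] at h1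
    exact ((h1.eventually (ge_mem_nhds hε))).exists_forall_of_atTop
  set R : ℕ → ℝ≥0∞ := fun n => ⨆ i : ℕ, ENNReal.ofReal (2 * r (n + i)) with hrdef
  have hrt : Tendsto R atTop (𝓝 0) := by
    rw [ENNReal.tendsto_atTop_zero]
    intro ε hε
    obtain ⟨n0, hN⟩ := hr' ε hε
    exact ⟨n0, fun n hn => iSup_le fun i => hN _ (by omega)⟩
  have hd : ∀ (n : ℕ) (q : Σ i : ℕ, (N (n + i))),
      Metric.ediam (Metric.closedEBall (c (n + q.1) (q.2 : ι)) (ENNReal.ofReal (r (n + q.1)))) ≤
        ENNReal.ofReal (2 * r (n + q.1)) := by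
    intro n q
    refine Metric.ediam_closedEBall_le.trans ?_
    rw [ENNReal.ofReal_mul two_pos.le, ENNReal.ofReal_ofNat]
  have key := Measure.hausdorffMeasure_le_liminf_tsum (X := X) (β := ℕ)
    (ι := fun n => Σ i : ℕ, (N (n + i))) D A (l := atTop) R hrt
    (fun n q => Metric.closedEBall (c (n + q.1) (q.2 : ι)) (ENNReal.ofReal (r (n + q.1))))
    (Eventually.of_forall fun n q =>
      (hd n q).trans (le_iSup (fun i : ℕ => ENNReal.ofReal (2 * r (n + i))) q.1))
    (Eventually.of_forall fun n a ha => by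
      obtain ⟨m, hm1, z, hz, hzd⟩ := hA a ha n
      obtain ⟨i, rfl⟩ := Nat.exists_eq_add_of_le hm1
      rw [Set.mem_iUnion]
      exact ⟨⟨i, ⟨z, hz⟩⟩, hzd⟩)
  refine ne_top_of_le_ne_top ?_ key
  have htot : (∑' m : ℕ, ENNReal.ofReal (w m)) ≠ ⊤ := by
    rw [← ENNReal.ofReal_tsum_of_nonneg hw0 hw]
    exact ENNReal.ofReal_ne_top
  have hbound : ∀ n : ℕ, (∑' q : Σ i : ℕ, (N (n + i)),
      Metric.ediam (Metric.closedEBall (c (n + q.1) (q.2 : ι)) (ENNReal.ofReal (r (n + q.1)))) ^ D) ≤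
      ∑' m : ℕ, ENNReal.ofReal (w m) := by
    intro n
    rw [ENNReal.tsum_sigma']
    calc (∑' i : ℕ, ∑' x : (N (n + i)),
        Metric.ediam (Metric.closedEBall (c (n + i) (x : ι)) (ENNReal.ofReal (r (n + i)))) ^ D)
        ≤ ∑' i : ℕ, ENNReal.ofReal (w (n + i)) := by
          apply ENNReal.tsum_le_tsum
          intro i
          have h1 : ∀ x : (N (n + i)),
              Metric.ediam (Metric.closedEBall (c (n + i) (x : ι)) (ENNReal.ofReal (r (n + i)))) ^ D ≤
                ENNReal.ofReal ((2 * r (n + i)) ^ D) := by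
            intro x
            rw [← ENNReal.ofReal_rpow_of_pos (by linarith [hr0 (n + i)])]
            exact ENNReal.rpow_le_rpow (hd n ⟨i, x⟩) hD.le
          refine (ENNReal.tsum_le_tsum h1).trans ?_
          rw [tsum_fintype]
          simp only [Finset.sum_const, Finset.card_univ, Fintype.card_coe, nsmul_eq_mul]
          rw [← ENNReal.ofReal_natCast, ← ENNReal.ofReal_mul (by positivity)]
          exact ENNReal.ofReal_le_ofReal (hcard (n + i))
      _ ≤ ∑' m : ℕ, ENNReal.ofReal (w m) :=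
          ENNReal.tsum_comp_le_tsum_of_injective (f := fun i : ℕ => n + i)
            (fun a b h => by simpa using h) (fun m : ℕ => ENNReal.ofReal (w m))
  refine ne_top_of_le_ne_top htot ?_
  apply Filter.liminf_le_of_le
  · isBoundedDefault
  · intro b hb
    obtain ⟨n, hn⟩ := hb.exists
    exact hn.trans (hbound n)

end Run7.h467.GA
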