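import Pool.Agent.Run7.h467.GA.Cover

/-! Good rational approximations: for all real vectors outside a set of small Hausdorff dimension, all small integral
combinations of the entries of all but finitely many good approximations avoid a thin set. -/

set_option autoImplicit false

open Finset Filter Topology MeasureTheory

namespace Run7.h467.GA

open scoped ENNReal NNReal

/-- The approximations `(p, q)` of `α` with `|α_i - p_i / q| ≤ c q ^ (-1-σ)` for which a nonzero integral combination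
`u · p + v q` with coefficients at most `c q ^ κ` is at distance at most `c q ^ θ` from the height of a member of `S`. -/
def Bad {d : ℕ} {T : Type} (S : Set T) (h : T → ℝ) (σ κ θ c : ℝ) (α : Fin d → ℝ) : Set ((Fin d → ℤ) × ℕ) :=
  {z | 1 ≤ z.2 ∧ (∀ i, |α i - z.1 i / z.2| ≤ c / (z.2 : ℝ) ^ (1 + σ)) ∧
    ∃ (u : Fin d → ℤ) (v : ℤ), (u ≠ 0 ∨ v ≠ 0) ∧ (∀ i, |(u i : ℝ)| ≤ c * (z.2 : ℝ) ^ κ) ∧
      |(v : ℝ)| ≤ c * (z.2 : ℝ) ^ κ ∧
      ∃ t ∈ S, |h t - (∑ i, (u i : ℝ) * z.1 i + v * z.2)| ≤ c * (z.2 : ℝ) ^ θ}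

/-- the vector with all but one entry given and a given value of a linear form -/
noncomputable def vec {d : ℕ} {T : Type} (h : T → ℝ)
    (z : Fin (d + 1) × (Fin d → ℤ) × (Fin (d + 1) → ℤ) × ℤ × T) : Fin (d + 1) → ℤ :=
  Fin.insertNth z.1 ((z.2.2.2.1 + ⌊h z.2.2.2.2⌋ - ∑ k, z.2.2.1 (z.1.succAbove k) * z.2.1 k) / z.2.2.1 z.1) z.2.1

lemma vec_eq {d : ℕ} {T : Type} (h : T → ℝ) (i : Fin (d + 1)) (x U : Fin (d + 1) → ℤ) (t : T) (hU : U i ≠ 0) :
    vec h (i, (fun k => x (i.succAbove k)), U, (∑ k, U k * x k - ⌊h t⌋, t)) = x := by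
  unfold vec
  simp only
  have h1 : ∑ k, U k * x k - ⌊h t⌋ + ⌊h t⌋ - ∑ k, U (i.succAbove k) * x (i.succAbove k) = x i * U i := by
    rw [Fin.sum_univ_succAbove _ i]
    ring
  rw [h1, Int.mul_ediv_cancel _ hU]
  exact Fin.insertNth_self_removeNth i x

lemma floor_bound {x : ℝ} (hx : 1 ≤ x) : (2 * (⌊x⌋₊ : ℝ) + 1) ≤ 3 * x := by
  have := Nat.floor_le (by linarith : 0 ≤ x)
  linarith

lemma card_box (n Y : ℕ) : (((Fintype.piFinset fun _ : Fin n => Icc (-(Y : ℤ)) Y).card : ℕ) : ℝ) =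
    (2 * (Y : ℝ) + 1) ^ n := by
  rw [Fintype.card_piFinset]
  simp only [Int.card_Icc, Finset.prod_const, Finset.card_univ, Fintype.card_fin]
  push_cast
  congr 1
  have : ((Y : ℤ) + 1 - -(Y : ℤ)).toNat = 2 * Y + 1 := by omega
  rw [this]
  push_cast
  ring

lemma mem_icc_floor {a : ℤ} {x : ℝ} (h : |(a : ℝ)| ≤ x) : a ∈ Icc (-((⌊x⌋₊ : ℕ) : ℤ)) ((⌊x⌋₊ : ℕ) : ℤ) := by
  have h1 : a.natAbs ≤ ⌊x⌋₊ := by
    apply Nat.le_floor
    rw [Nat.cast_natAbs, Int.cast_abs]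
    exact h
  rw [mem_Icc]
  omega

theorem dim_bounded {d : ℕ} {T : Type} (S : Set T) (h : T → ℝ) {s σ κ θ D : ℝ} (hs : 0 ≤ s) (hσ : 0 ≤ σ)
    (hκ : 0 ≤ κ) (hθ : 0 ≤ θ) (hθ1 : θ ≤ 1)
    (hD : d + (1 + κ) * s + (d + 1) * κ + θ < D * (1 + σ)) (C : ℝ) (hC : 0 ≤ C)
    (hS : ∀ X : ℝ, 1 ≤ X → {t | t ∈ S ∧ h t ≤ X}.Finite ∧ ({t | t ∈ S ∧ h t ≤ X}.ncard : ℝ) ≤ C * X ^ s)
    (K : ℕ) (hK : 1 ≤ K) :
    dimH {α : Fin d → ℝ | (∀ i, |α i| ≤ K) ∧ ∀ n : ℕ, ∃ z ∈ Bad S h σ κ θ K α, n ≤ z.2} ≤ ENNReal.ofReal D := by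
  have hK' : (1 : ℝ) ≤ K := by exact_mod_cast hK
  have hK0 : (0 : ℝ) < K := by linarith
  have h1σ : 0 < 1 + σ := by linarith
  have he0 : 0 ≤ d + (1 + κ) * s + (d + 1) * κ + θ := by positivity
  have hD0 : 0 < D := by
    have h1 : 0 < D * (1 + σ) := lt_of_le_of_lt he0 hD
    exact (pos_iff_pos_of_mul_pos h1).2 h1σ
  set Q : ℕ → ℝ := fun j => (2 : ℝ) ^ (j + 1) with hQ
  have hQ1 : ∀ j, 1 ≤ Q j := fun j => one_le_pow₀ (by norm_num)
  have hQ0 : ∀ j, 0 < Q j := fun j => lt_of_lt_of_le one_pos (hQ1 j)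
  set M : ℝ := 2 * K ^ 2 * (d + 1) + K with hM
  have hM1 : 1 ≤ M := by
    rw [hM]
    have : (0 : ℝ) ≤ 2 * K ^ 2 * (d + 1) := by positivity
    linarith
  have hX : ∀ j : ℕ, 1 ≤ M * Q j ^ (1 + κ) := fun j =>
    one_le_mul_of_one_le_of_one_le hM1 (Real.one_le_rpow (hQ1 j) (by linarith))
  set N : ℕ → Finset (Fin (d + 1) × (Fin d → ℤ) × (Fin (d + 1) → ℤ) × ℤ × T) := fun j =>
    (univ : Finset (Fin (d + 1))) ×ˢ (Fintype.piFinset fun _ : Fin d =>
        Icc (-((⌊2 * K * Q j⌋₊ : ℕ) : ℤ)) ((⌊2 * K * Q j⌋₊ : ℕ) : ℤ)) ×ˢ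
      (Fintype.piFinset fun _ : Fin (d + 1) =>
        Icc (-((⌊K * Q j ^ κ⌋₊ : ℕ) : ℤ)) ((⌊K * Q j ^ κ⌋₊ : ℕ) : ℤ)) ×ˢ
      (Icc (-((⌊K * Q j ^ θ + 1⌋₊ : ℕ) : ℤ)) ((⌊K * Q j ^ θ + 1⌋₊ : ℕ) : ℤ)) ×ˢ
      (hS (M * Q j ^ (1 + κ)) (hX j)).1.toFinset with hN
  set r : ℕ → ℝ := fun j => K * (Q j / 2) ^ (-(1 + σ)) with hr
  have hr0 : ∀ j, 0 < r j := fun j => mul_pos hK0 (Real.rpow_pos_of_pos (by have := hQ0 j; positivity) _)
  have hQt : Tendsto Q atTop atTop :=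
    (tendsto_pow_atTop_atTop_of_one_lt (by norm_num : (1 : ℝ) < 2)).comp (tendsto_add_atTop_nat 1)
  have hrt : Tendsto r atTop (𝓝 0) := by
    have h1 : Tendsto (fun j => Q j / 2) atTop atTop := hQt.atTop_div_const two_pos
    have h2 := ((tendsto_rpow_neg_atTop h1σ).comp h1).const_mul (K : ℝ)
    rw [mul_zero] at h2
    exact h2
  set e : ℝ := d + (1 + κ) * s + (d + 1) * κ + θ with he
  set A : ℝ := (d + 1) * (6 * K) ^ d * (3 * K) ^ (d + 1) * (6 * K) * (C * M ^ s) *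
    (2 * (K * (2 : ℝ) ^ (1 + σ))) ^ D with hA
  set w : ℕ → ℝ := fun j => A * (Q j) ^ (e - (1 + σ) * D) with hw
  have hA0 : 0 ≤ A := by positivity
  have hwsum : Summable w := by
    apply Summable.mul_left
    have h1 : ∀ j : ℕ, (Q j) ^ (e - (1 + σ) * D) =
        (2 : ℝ) ^ (e - (1 + σ) * D) * ((2 : ℝ) ^ (e - (1 + σ) * D)) ^ j := by
      intro j
      rw [hQ]
      simp only
      rw [← Real.rpow_natCast, ← Real.rpow_mul two_pos.le, mul_comm ((j + 1 : ℕ) : ℝ), Real.rpow_mul two_pos.le,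
        Real.rpow_natCast, pow_succ, mul_comm]
    simp only [h1]
    apply Summable.mul_left
    apply summable_geometric_of_lt_one (Real.rpow_nonneg two_pos.le _)
    apply Real.rpow_lt_one_of_one_lt_of_neg (by norm_num)
    linarith
  refine dim_cover N (fun _ z => fun i => ((vec h z i.succ : ℤ) : ℝ) / ((vec h z 0 : ℤ) : ℝ)) r hr0 hrt D hD0 w hwsum
    ?_ _ ?_
  · intro j
    have hq := hQ0 j
    have hq1 := hQ1 j
    have hcS : (((hS (M * Q j ^ (1 + κ)) (hX j)).1.toFinset.card : ℕ) : ℝ) =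
        ({t | t ∈ S ∧ h t ≤ M * Q j ^ (1 + κ)}.ncard : ℝ) := by
      exact_mod_cast (Set.ncard_eq_toFinset_card _ (hS (M * Q j ^ (1 + κ)) (hX j)).1).symm
    have hc : ((N j).card : ℝ) = (d + 1) * ((2 * (⌊2 * K * Q j⌋₊ : ℝ) + 1) ^ d *
        ((2 * (⌊K * Q j ^ κ⌋₊ : ℝ) + 1) ^ (d + 1) * ((2 * (⌊K * Q j ^ θ + 1⌋₊ : ℝ) + 1) *
          ({t | t ∈ S ∧ h t ≤ M * Q j ^ (1 + κ)}.ncard : ℝ)))) := by
      rw [hN]
      simp only [Finset.card_product, Nat.cast_mul]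
      rw [card_box, card_box, hcS, Int.card_Icc]
      simp only [Finset.card_univ, Fintype.card_fin]
      have : ((⌊K * Q j ^ θ + 1⌋₊ : ℤ) + 1 - -(⌊K * Q j ^ θ + 1⌋₊ : ℤ)).toNat = 2 * ⌊K * Q j ^ θ + 1⌋₊ + 1 := by
        omega
      rw [this]
      push_cast
      ring
    have b1 : 2 * (⌊2 * K * Q j⌋₊ : ℝ) + 1 ≤ 6 * K * Q j := by
      have h1 : 1 ≤ 2 * K * Q j := by nlinarith
      have := floor_bound h1
      linarith
    have hκ1 : 1 ≤ Q j ^ κ := Real.one_le_rpow hq1 hκ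
    have hθ2 : 1 ≤ Q j ^ θ := Real.one_le_rpow hq1 hθ
    have b2 : 2 * (⌊K * Q j ^ κ⌋₊ : ℝ) + 1 ≤ 3 * K * Q j ^ κ := by
      have h1 : 1 ≤ K * Q j ^ κ := one_le_mul_of_one_le_of_one_le hK' hκ1
      have := floor_bound h1
      linarith
    have b3 : 2 * (⌊K * Q j ^ θ + 1⌋₊ : ℝ) + 1 ≤ 6 * K * Q j ^ θ := by
      have h0 : 1 ≤ K * Q j ^ θ := one_le_mul_of_one_le_of_one_le hK' hθ2
      have h1 : 1 ≤ K * Q j ^ θ + 1 := by linarith
      have := floor_bound h1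
      linarith
    have b4 := (hS (M * Q j ^ (1 + κ)) (hX j)).2
    have b5 : (M * Q j ^ (1 + κ)) ^ s = M ^ s * Q j ^ ((1 + κ) * s) := by
      rw [Real.mul_rpow (by linarith) (Real.rpow_nonneg hq.le _), ← Real.rpow_mul hq.le]
    rw [b5, ← mul_assoc] at b4
    have hcard : ((N j).card : ℝ) ≤ (d + 1) * ((6 * K * Q j) ^ d * ((3 * K * Q j ^ κ) ^ (d + 1) *
        ((6 * K * Q j ^ θ) * (C * M ^ s * Q j ^ ((1 + κ) * s))))) := by
      rw [hc]
      gcongr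
    have hrad : (2 * r j) ^ D = (2 * (K * (2 : ℝ) ^ (1 + σ))) ^ D * Q j ^ (-((1 + σ) * D)) := by
      rw [hr]
      simp only
      rw [Real.div_rpow hq.le two_pos.le, Real.rpow_neg two_pos.le, div_inv_eq_mul]
      have : 2 * (K * (Q j ^ (-(1 + σ)) * (2 : ℝ) ^ (1 + σ))) =
          (2 * (K * (2 : ℝ) ^ (1 + σ))) * Q j ^ (-(1 + σ)) := by ring
      rw [this, Real.mul_rpow (by positivity) (by positivity), ← Real.rpow_mul hq.le]
      congr 2
      ring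
    have hsplit : Q j ^ (e - (1 + σ) * D) = Q j ^ d * ((Q j ^ κ) ^ (d + 1) * (Q j ^ θ * Q j ^ ((1 + κ) * s))) *
        Q j ^ (-((1 + σ) * D)) := by
      rw [← Real.rpow_natCast (Q j), ← Real.rpow_natCast (Q j ^ κ), ← Real.rpow_mul hq.le, ← Real.rpow_add hq,
        ← Real.rpow_add hq, ← Real.rpow_add hq, ← Real.rpow_add hq]
      congr 1
      rw [he]
      push_cast
      ring
    calc ((N j).card : ℝ) * (2 * r j) ^ D
        ≤ ((d + 1) * ((6 * K * Q j) ^ d * ((3 * K * Q j ^ κ) ^ (d + 1) *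
          ((6 * K * Q j ^ θ) * (C * M ^ s * Q j ^ ((1 + κ) * s)))))) * (2 * r j) ^ D :=
          mul_le_mul_of_nonneg_right hcard (Real.rpow_nonneg (by have := hr0 j; positivity) _)
      _ = w j := by
          rw [hw]
          simp only
          rw [hsplit, hrad, hA, mul_pow, mul_pow]
          ring
  · rintro α ⟨hα, hinf⟩ n
    obtain ⟨⟨p, q⟩, hz, hq⟩ := hinf (2 ^ n)
    obtain ⟨hq1, happ, u, v, huv, hu, hv, t, ht, hm⟩ := hz
    simp only at hq1 happ hu hv hm hq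
    refine ⟨Nat.log 2 q, Nat.le_log_of_pow_le (by norm_num) hq, ?_⟩
    set j := Nat.log 2 q with hj
    have hqr1 : (1 : ℝ) ≤ q := by exact_mod_cast hq1
    have hqr0 : (0 : ℝ) < q := by linarith
    have hjq : (2 : ℝ) ^ j ≤ q := by exact_mod_cast Nat.pow_log_le_self 2 (by omega)
    have hqj : (q : ℝ) ≤ Q j := by
      have h1 : q ≤ 2 ^ (j + 1) := (Nat.lt_pow_succ_log_self (b := 2) (by norm_num) q).le
      have h2 : (q : ℝ) ≤ (2 : ℝ) ^ (j + 1) := by exact_mod_cast h1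
      exact h2
    have hq2 : Q j / 2 ≤ q := by
      rw [hQ]
      simp only
      rw [pow_succ]
      linarith
    have hqp := hQ0 j
    have hκq : (q : ℝ) ^ κ ≤ Q j ^ κ := Real.rpow_le_rpow hqr0.le hqj hκ
    have hθq : (q : ℝ) ^ θ ≤ Q j ^ θ := Real.rpow_le_rpow hqr0.le hqj hθ
    set x : Fin (d + 1) → ℤ := Fin.cons (q : ℤ) p with hx
    set U : Fin (d + 1) → ℤ := Fin.cons v u with hU
    have hxb : ∀ i, |(x i : ℝ)| ≤ 2 * K * Q j := by
      intro i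
      refine Fin.cases ?_ (fun k => ?_) i
      · rw [hx, Fin.cons_zero]
        rw [Int.cast_natCast, abs_of_pos hqr0]
        nlinarith
      · rw [hx, Fin.cons_succ]
        have h1 := happ k
        have h2 := hα k
        have h3 : (K : ℝ) / (q : ℝ) ^ (1 + σ) ≤ K := by
          apply div_le_self hK0.le
          exact Real.one_le_rpow hqr1 (by linarith)
        have h4 : |(p k : ℝ) / q| ≤ 2 * K := by
          have : (p k : ℝ) / q = α k - (α k - (p k : ℝ) / q) := by ring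
          rw [this]
          exact (abs_sub _ _).trans (by linarith)
        rw [abs_div, abs_of_pos hqr0, div_le_iff₀ hqr0] at h4
        refine h4.trans ?_
        exact mul_le_mul_of_nonneg_left hqj (by positivity)
    have hUb : ∀ i, |(U i : ℝ)| ≤ K * Q j ^ κ := by
      intro i
      refine Fin.cases ?_ (fun k => ?_) i
      · rw [hU, Fin.cons_zero]
        exact hv.trans (mul_le_mul_of_nonneg_left hκq hK0.le)
      · rw [hU, Fin.cons_succ]
        exact (hu k).trans (mul_le_mul_of_nonneg_left hκq hK0.le)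
    have hUne : ∃ i, U i ≠ 0 := by
      rcases huv with h1 | h1
      · obtain ⟨k, hk⟩ := Function.ne_iff.1 h1
        exact ⟨k.succ, by rw [hU, Fin.cons_succ]; exact hk⟩
      · exact ⟨0, by rw [hU, Fin.cons_zero]; exact h1⟩
    obtain ⟨i0, hi0⟩ := hUne
    have hsum : (∑ i, (u i : ℝ) * p i + v * q) = ((∑ k, U k * x k : ℤ) : ℝ) := by
      rw [Fin.sum_univ_succ, hU, hx]
      simp only [Fin.cons_zero, Fin.cons_succ]
      push_cast
      ring
    rw [hsum] at hm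
    have hm' := hm.trans (mul_le_mul_of_nonneg_left hθq hK0.le)
    have hform : |((∑ k, U k * x k : ℤ) : ℝ)| ≤ (d + 1) * ((K * Q j ^ κ) * (2 * K * Q j)) := by
      push_cast
      refine (Finset.abs_sum_le_sum_abs _ _).trans ?_
      calc (∑ k : Fin (d + 1), |(U k : ℝ) * (x k : ℝ)|)
          ≤ ∑ _k : Fin (d + 1), ((K * Q j ^ κ) * (2 * K * Q j)) := by
            apply Finset.sum_le_sum
            intro k _
            rw [abs_mul]
            exact mul_le_mul (hUb k) (hxb k) (abs_nonneg _) (by positivity)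
        _ = (d + 1) * ((K * Q j ^ κ) * (2 * K * Q j)) := by
            rw [Finset.sum_const, Finset.card_univ, Fintype.card_fin, nsmul_eq_mul]
            push_cast
            ring
    have hht : h t ≤ M * Q j ^ (1 + κ) := by
      have h1 : Q j ^ (1 + κ) = Q j * Q j ^ κ := by
        rw [Real.rpow_add hqp, Real.rpow_one]
      have h2 : Q j ^ θ ≤ Q j ^ (1 + κ) := Real.rpow_le_rpow_of_exponent_le (hQ1 j) (by linarith)
      have h3 := (abs_le.1 hm').2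
      have h4 := (abs_le.1 hform).2
      have h5 : (K : ℝ) * Q j ^ θ ≤ K * Q j ^ (1 + κ) := mul_le_mul_of_nonneg_left h2 hK0.le
      have h6 : ((d : ℝ) + 1) * ((K * Q j ^ κ) * (2 * K * Q j)) = 2 * K ^ 2 * (d + 1) * Q j ^ (1 + κ) := by
        rw [h1]
        ring
      rw [h6] at h4
      rw [hM, add_mul]
      linarith
    refine ⟨(i0, (fun k => x (i0.succAbove k)), U, (∑ k, U k * x k - ⌊h t⌋, t)), ?_, ?_⟩
    · rw [hN]
      simp only [Finset.mem_product, Finset.mem_univ, true_and, Fintype.mem_piFinset, Set.Finite.mem_toFinset,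
        Set.mem_ofPred_eq]
      refine ⟨fun k => mem_icc_floor (hxb _), fun k => mem_icc_floor (hUb _), mem_icc_floor ?_, ht, hht⟩
      have h1 := Int.floor_le (h t)
      have h2 := (Int.lt_floor_add_one (h t)).le
      have h3 := abs_le.1 hm'
      rw [Int.cast_sub, abs_le]
      constructor
      · linarith [h3.2]
      · linarith [h3.1]
    · rw [vec_eq h i0 x U t hi0]
      rw [edist_pi_le_iff]
      intro k
      rw [edist_dist, Real.dist_eq]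
      apply ENNReal.ofReal_le_ofReal
      rw [hx]
      simp only [Fin.cons_succ, Fin.cons_zero, Int.cast_natCast]
      refine (happ k).trans ?_
      rw [hr]
      simp only
      rw [div_eq_mul_inv, ← Real.rpow_neg hqr0.le]
      apply mul_le_mul_of_nonneg_left _ hK0.le
      exact Real.rpow_le_rpow_of_nonpos (by positivity) hq2 (by linarith)

/-- **Good approximations.** Let `S` have at most `C X ^ (s + ε)` members of height at most `X`, for each `ε > 0`. For all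
`α` in `ℝ ^ d` outside a set of Hausdorff dimension at most `(d + (1 + κ) s + (d + 1) κ + θ) / (1 + σ)`, all `c` and all but
finitely many `(p, q)` with `|α_i - p_i / q| ≤ c q ^ (-1-σ)` no height of a member of `S` is at distance at most `c q ^ θ`
from any nonzero integral combination `u · p + v q` with coefficients at most `c q ^ κ`. -/
theorem good {T : Type} (S : Set T) (h : T → ℝ) {s : ℝ} (hs : 0 ≤ s)
    (hS : ∀ ε : ℝ, 0 < ε → ∃ C : ℝ, ∀ X : ℝ, 1 ≤ X →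
      {t | t ∈ S ∧ h t ≤ X}.Finite ∧ ({t | t ∈ S ∧ h t ≤ X}.ncard : ℝ) ≤ C * X ^ (s + ε))
    (d : ℕ) {σ κ θ : ℝ} (hσ : 0 ≤ σ) (hκ : 0 ≤ κ) (hθ : 0 ≤ θ) (hθ1 : θ ≤ 1) :
    ∃ E : Set (Fin d → ℝ), dimH E ≤ ENNReal.ofReal ((d + (1 + κ) * s + (d + 1) * κ + θ) / (1 + σ)) ∧
      ∀ α : Fin d → ℝ, α ∉ E → ∀ c : ℝ, ∃ Q : ℕ, ∀ (p : Fin d → ℤ) (q : ℕ), Q ≤ q →
        (∀ i, |α i - p i / q| ≤ c / (q : ℝ) ^ (1 + σ)) → ∀ (u : Fin d → ℤ) (v : ℤ), (u ≠ 0 ∨ v ≠ 0) →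
          (∀ i, |(u i : ℝ)| ≤ c * (q : ℝ) ^ κ) → |(v : ℝ)| ≤ c * (q : ℝ) ^ κ →
            ∀ t ∈ S, c * (q : ℝ) ^ θ < |h t - (∑ i, (u i : ℝ) * p i + v * q)| := by
  have h1σ : 0 < 1 + σ := by linarith
  set F : ℕ → Set (Fin d → ℝ) := fun K =>
    {α : Fin d → ℝ | (∀ i, |α i| ≤ (K + 1 : ℕ)) ∧ ∀ n : ℕ, ∃ z ∈ Bad S h σ κ θ (K + 1 : ℕ) α, n ≤ z.2} with hF
  refine ⟨⋃ K, F K, ?_, fun α hαE c => ?_⟩
  · rw [dimH_iUnion]
    apply iSup_le
    intro K
    apply ENNReal.le_of_forall_pos_le_add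
    intro ε hε _
    have hε' : (0 : ℝ) < ε := by exact_mod_cast hε
    set ε1 : ℝ := ε * (1 + σ) / (2 * (1 + κ)) with hε1
    have hκ1 : 0 < 1 + κ := by linarith
    have hε1p : 0 < ε1 := by positivity
    obtain ⟨C, hC⟩ := hS ε1 hε1p
    have hC' : ∀ X : ℝ, 1 ≤ X → {t | t ∈ S ∧ h t ≤ X}.Finite ∧
        ({t | t ∈ S ∧ h t ≤ X}.ncard : ℝ) ≤ |C| * X ^ (s + ε1) := by
      intro X hX
      exact ⟨(hC X hX).1, (hC X hX).2.trans (mul_le_mul_of_nonneg_right (le_abs_self C) (by positivity))⟩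
    have h1 := dim_bounded (d := d) S h (s := s + ε1) (σ := σ) (κ := κ) (θ := θ)
      (D := (d + (1 + κ) * s + (d + 1) * κ + θ) / (1 + σ) + ε) (by positivity) hσ hκ hθ hθ1 (by
        have h0 : ((d + (1 + κ) * s + (d + 1) * κ + θ) / (1 + σ) + ε) * (1 + σ) =
            (d + (1 + κ) * s + (d + 1) * κ + θ) + ε * (1 + σ) := by
          field_simp
        have h3 : (1 + κ) * ε1 = ε * (1 + σ) / 2 := by
          rw [hε1]
          field_simp
        have h2 : 0 < (ε : ℝ) * (1 + σ) := by positivity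
        rw [h0]
        linarith) |C| (abs_nonneg C) hC' (K + 1) (by omega)
    rw [ENNReal.ofReal_add (by positivity) (by positivity), ENNReal.ofReal_coe_nnreal] at h1
    exact h1
  · obtain ⟨K, hK⟩ : ∃ K : ℕ, c ≤ K ∧ ∀ i, |α i| ≤ K := by
      obtain ⟨K1, hK1⟩ := exists_nat_ge c
      obtain ⟨K2, hK2⟩ := exists_nat_ge (∑ i, |α i|)
      refine ⟨max K1 K2, hK1.trans (by exact_mod_cast le_max_left _ _), fun i => ?_⟩
      exact ((Finset.single_le_sum (f := fun i => |α i|) (fun i _ => abs_nonneg _) (mem_univ i)).trans hK2).trans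
        (by exact_mod_cast le_max_right _ _)
    have h1 : α ∉ F K := fun h => hαE (Set.mem_iUnion.2 ⟨_, h⟩)
    by_contra hcon
    push Not at hcon
    apply h1
    have hcK : c ≤ ((K + 1 : ℕ) : ℝ) := by
      push_cast
      linarith [hK.1]
    refine ⟨fun i => (hK.2 i).trans (by push_cast; linarith), fun n => ?_⟩
    obtain ⟨p, q, hq, happ, u, v, huv, hu, hv, t, ht, hm⟩ := hcon (n + 1)
    refine ⟨(p, q), ⟨by simp only; omega, fun i => ?_, u, v, huv, fun i => ?_, ?_, t, ht, ?_⟩, by simp only; omega⟩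
    · exact (happ i).trans (div_le_div_of_nonneg_right hcK (by positivity))
    · exact (hu i).trans (mul_le_mul_of_nonneg_right hcK (by positivity))
    · exact hv.trans (mul_le_mul_of_nonneg_right hcK (by positivity))
    · exact hm.trans (mul_le_mul_of_nonneg_right hcK (by positivity))

open Classical in
/-- the case of a set of natural numbers -/
theorem good_nat (P : Set ℕ) {s : ℝ} (hs : 0 ≤ s)
    (hP : ∀ ε : ℝ, 0 < ε → ∃ C : ℝ, ∀ X : ℕ, 1 ≤ X →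
      (((Ioc 0 X).filter (fun t => t ∈ P)).card : ℝ) ≤ C * (X : ℝ) ^ (s + ε))
    (d : ℕ) {σ κ θ : ℝ} (hσ : 0 ≤ σ) (hκ : 0 ≤ κ) (hθ : 0 ≤ θ) (hθ1 : θ ≤ 1) :
    ∃ E : Set (Fin d → ℝ), dimH E ≤ ENNReal.ofReal ((d + (1 + κ) * s + (d + 1) * κ + θ) / (1 + σ)) ∧
      ∀ α : Fin d → ℝ, α ∉ E → ∀ c : ℝ, ∃ Q : ℕ, ∀ (p : Fin d → ℤ) (q : ℕ), Q ≤ q →
        (∀ i, |α i - p i / q| ≤ c / (q : ℝ) ^ (1 + σ)) → ∀ (u : Fin d → ℤ) (v : ℤ), (u ≠ 0 ∨ v ≠ 0) →
          (∀ i, |(u i : ℝ)| ≤ c * (q : ℝ) ^ κ) → |(v : ℝ)| ≤ c * (q : ℝ) ^ κ →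
            ∀ m : ℕ, |(m : ℝ) - (∑ i, (u i : ℝ) * p i + v * q)| ≤ c * (q : ℝ) ^ θ → 0 < m ∧ m ∉ P := by
  obtain ⟨E, hE, h⟩ := good {t : ℕ | t ∈ P ∨ t = 0} (fun t : ℕ => (t : ℝ)) hs (by
    intro ε hε
    obtain ⟨C, hC⟩ := hP ε hε
    refine ⟨|C| + 1, fun X hX => ?_⟩
    have hX1 : 1 ≤ ⌊X⌋₊ := Nat.le_floor (by exact_mod_cast hX)
    have hsub : {t : ℕ | t ∈ {t : ℕ | t ∈ P ∨ t = 0} ∧ (t : ℝ) ≤ X} ⊆
        (((Ioc 0 ⌊X⌋₊).filter (fun t => t ∈ P) ∪ {0} : Finset ℕ) : Set ℕ) := by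
      rintro t ⟨ht, htX⟩
      rw [mem_coe, mem_union, mem_filter, mem_Ioc, mem_singleton]
      rcases Nat.eq_zero_or_pos t with h0 | h0
      · exact Or.inr h0
      · rcases ht with ht | ht
        · exact Or.inl ⟨⟨h0, Nat.le_floor htX⟩, ht⟩
        · exact Or.inr ht
    refine ⟨(Finset.finite_toSet _).subset hsub, ?_⟩
    have h1 := Set.ncard_le_ncard hsub (Finset.finite_toSet _)
    rw [Set.ncard_coe_finset] at h1
    have h2 := h1.trans (Finset.card_union_le _ _)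
    rw [card_singleton] at h2
    have h3 : ({t : ℕ | t ∈ {t : ℕ | t ∈ P ∨ t = 0} ∧ (t : ℝ) ≤ X}.ncard : ℝ) ≤
        (((Ioc 0 ⌊X⌋₊).filter (fun t => t ∈ P)).card : ℝ) + 1 := by exact_mod_cast h2
    have h4 := hC ⌊X⌋₊ hX1
    have h5 : ((⌊X⌋₊ : ℕ) : ℝ) ^ (s + ε) ≤ X ^ (s + ε) :=
      Real.rpow_le_rpow (Nat.cast_nonneg _) (Nat.floor_le (by linarith)) (by positivity)
    have h6 : C * ((⌊X⌋₊ : ℕ) : ℝ) ^ (s + ε) ≤ |C| * X ^ (s + ε) :=
      (mul_le_mul_of_nonneg_right (le_abs_self C) (by positivity)).trans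
        (mul_le_mul_of_nonneg_left h5 (abs_nonneg C))
    have h7 : (1 : ℝ) ≤ X ^ (s + ε) := Real.one_le_rpow hX (by positivity)
    nlinarith) d hσ hκ hθ hθ1
  refine ⟨E, hE, fun α hαE c => ?_⟩
  obtain ⟨Q, hQ⟩ := h α hαE c
  refine ⟨Q, fun p q hq happ u v huv hu hv m hm => ?_⟩
  have h1 := hQ p q hq happ u v huv hu hv m
  constructor
  · rcases Nat.eq_zero_or_pos m with h0 | h0
    · exact absurd (h1 (Or.inr h0)) (not_lt.2 hm)
    · exact h0
  · intro hmP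
    exact absurd (h1 (Or.inl hmP)) (not_lt.2 hm)

end Run7.h467.GA
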