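import Pool.Agent.Run7.h467.GA.Few

/-! Counting a set of natural numbers from its dyadic pieces. -/

set_option autoImplicit false

open Finset

namespace Run7.h467.GA

open Classical in
theorem dyadic (P : Set ℕ) {s : ℝ} (hs : 0 ≤ s) (J : ℕ)
    (h : ∀ j : ℕ, J ≤ j → (((Ico (2 ^ j) (2 ^ (j + 1))).filter (fun t => t ∈ P)).card : ℝ) ≤ ((2 : ℝ) ^ (j + 1)) ^ s)
    (ε : ℝ) (hε : 0 < ε) : ∃ C : ℝ, ∀ X : ℕ, 1 ≤ X →
      (((Ioc 0 X).filter (fun t => t ∈ P)).card : ℝ) ≤ C * (X : ℝ) ^ (s + ε) := by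
  refine ⟨(2 : ℝ) ^ J + (1 / (ε * Real.log 2) + 1) * (2 : ℝ) ^ s, fun X hX => ?_⟩
  have hX1 : (1 : ℝ) ≤ X := by exact_mod_cast hX
  have hX0 : (0 : ℝ) < X := by linarith
  set L := Nat.log 2 X with hL
  have hLX' : 2 ^ L ≤ X := Nat.pow_log_le_self 2 (by omega)
  have hLX : (2 : ℝ) ^ L ≤ X := by exact_mod_cast hLX'
  have hsub : (Ioc 0 X).filter (fun t => t ∈ P) ⊆ range (2 ^ J) ∪
      ((range (L + 1)).filter (fun j => J ≤ j)).biUnion (fun j => (Ico (2 ^ j) (2 ^ (j + 1))).filter (fun t => t ∈ P)) := by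
    intro t ht
    rw [mem_filter, mem_Ioc] at ht
    obtain ⟨⟨ht0, htX⟩, htP⟩ := ht
    rw [mem_union, mem_range, mem_biUnion]
    by_cases htJ : t < 2 ^ J
    · exact Or.inl htJ
    · right
      have h1 : 2 ^ Nat.log 2 t ≤ t := Nat.pow_log_le_self 2 (by omega)
      have h2 : t < 2 ^ (Nat.log 2 t + 1) := Nat.lt_pow_succ_log_self (by norm_num) _
      refine ⟨Nat.log 2 t, ?_, ?_⟩
      · rw [mem_filter, mem_range]
        refine ⟨Nat.lt_succ_of_le (Nat.log_mono_right htX), ?_⟩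
        exact Nat.le_log_of_pow_le (by norm_num) (not_lt.1 htJ)
      · rw [mem_filter, mem_Ico]
        exact ⟨⟨h1, h2⟩, htP⟩
  have h1 := (Finset.card_le_card hsub).trans (Finset.card_union_le _ _)
  rw [card_range] at h1
  have h2 : (((((range (L + 1)).filter (fun j => J ≤ j)).biUnion
      (fun j => (Ico (2 ^ j) (2 ^ (j + 1))).filter (fun t => t ∈ P))).card : ℕ) : ℝ) ≤
      ((L : ℝ) + 1) * ((2 : ℝ) ^ s * (X : ℝ) ^ s) := by
    calc _ ≤ ((∑ j ∈ (range (L + 1)).filter (fun j => J ≤ j),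
          ((Ico (2 ^ j) (2 ^ (j + 1))).filter (fun t => t ∈ P)).card : ℕ) : ℝ) := by
          exact_mod_cast Finset.card_biUnion_le
      _ = ∑ j ∈ (range (L + 1)).filter (fun j => J ≤ j),
          ((((Ico (2 ^ j) (2 ^ (j + 1))).filter (fun t => t ∈ P)).card : ℕ) : ℝ) := by push_cast; rfl
      _ ≤ ∑ _j ∈ (range (L + 1)).filter (fun j => J ≤ j), ((2 : ℝ) ^ s * (X : ℝ) ^ s) := by
          apply Finset.sum_le_sum
          intro j hj
          rw [mem_filter, mem_range] at hj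
          refine (h j hj.2).trans ?_
          rw [← Real.mul_rpow two_pos.le hX0.le]
          apply Real.rpow_le_rpow (by positivity) _ hs
          rw [pow_succ, mul_comm]
          apply mul_le_mul_of_nonneg_left _ two_pos.le
          exact (pow_le_pow_right₀ one_le_two (by omega)).trans hLX
      _ ≤ ((L : ℝ) + 1) * ((2 : ℝ) ^ s * (X : ℝ) ^ s) := by
          rw [Finset.sum_const, nsmul_eq_mul]
          apply mul_le_mul_of_nonneg_right _ (by positivity)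
          have := Finset.card_filter_le (range (L + 1)) (fun j => J ≤ j)
          rw [card_range] at this
          exact_mod_cast this
  have h3 := log_bound ε hε L X hLX
  have h4 : (((Ioc 0 X).filter (fun t => t ∈ P)).card : ℝ) ≤ (2 : ℝ) ^ J + ((L : ℝ) + 1) * ((2 : ℝ) ^ s * (X : ℝ) ^ s) := by
    have h5 : (((Ioc 0 X).filter (fun t => t ∈ P)).card : ℝ) ≤ (2 : ℝ) ^ J +
        (((((range (L + 1)).filter (fun j => J ≤ j)).biUnion
          (fun j => (Ico (2 ^ j) (2 ^ (j + 1))).filter (fun t => t ∈ P))).card : ℕ) : ℝ) := by exact_mod_cast h1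
    linarith
  have h6 : ((L : ℝ) + 1) * ((2 : ℝ) ^ s * (X : ℝ) ^ s) ≤
      ((1 / (ε * Real.log 2) + 1) * (2 : ℝ) ^ s) * (X : ℝ) ^ (s + ε) := by
    calc ((L : ℝ) + 1) * ((2 : ℝ) ^ s * (X : ℝ) ^ s)
        ≤ ((1 / (ε * Real.log 2) + 1) * (X : ℝ) ^ ε) * ((2 : ℝ) ^ s * (X : ℝ) ^ s) :=
          mul_le_mul_of_nonneg_right h3 (by positivity)
      _ = ((1 / (ε * Real.log 2) + 1) * (2 : ℝ) ^ s) * (X : ℝ) ^ (s + ε) := by
          rw [Real.rpow_add hX0]
          ring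
  have h7 : (2 : ℝ) ^ J ≤ (2 : ℝ) ^ J * (X : ℝ) ^ (s + ε) :=
    le_mul_of_one_le_right (by positivity) (Real.one_le_rpow hX1 (by positivity))
  rw [add_mul]
  linarith

end Run7.h467.GA
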