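import Pool.Agent.Run7.h467.GA.Tup

/-! Tuples of independent small integral combinations of the entries of good approximations: the theorems. -/

set_option autoImplicit false

open Finset Filter Topology MeasureTheory

namespace Run7.h467.GA

open scoped ENNReal NNReal

/-- The members of the tuple `s` are at distance at most `c q ^ θ` from the values `u_j · p + v_j q` of linearly independent
integral linear forms with coefficients at most `c q ^ η`. -/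
def NearForms {d k : ℕ} (η θ c : ℝ) (p : Fin d → ℤ) (q : ℕ) (s : Fin k → ℕ) : Prop :=
  ∃ (u : Fin k → Fin d → ℤ) (v : Fin k → ℤ),
    (∀ a : Fin k → ℤ, (∀ i, ∑ j, a j * u j i = 0) → ∑ j, a j * v j = 0 → a = 0) ∧
    (∀ j i, |(u j i : ℝ)| ≤ c * (q : ℝ) ^ η) ∧ (∀ j, |(v j : ℝ)| ≤ c * (q : ℝ) ^ η) ∧
    ∀ j, |(s j : ℝ) - (∑ i, (u j i : ℝ) * p i + v j * q)| ≤ c * (q : ℝ) ^ θ

lemma tbad_of_near {d k : ℕ} {P : Set (Fin k → ℕ)} {σ η θ c c' : ℝ} (hc : c ≤ c') {α : Fin d → ℝ} {p : Fin d → ℤ}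
    {q : ℕ} (hq : 1 ≤ q) (happ : ∀ i, |α i - p i / q| ≤ c / (q : ℝ) ^ (1 + σ)) {s : Fin k → ℕ}
    (h : NearForms η θ c p q s) (hs : s ∈ P) : (p, q) ∈ TBad P σ η θ c' α := by
  obtain ⟨u, v, h1, h2, h3, h4⟩ := h
  refine ⟨hq, fun i => (happ i).trans (div_le_div_of_nonneg_right hc (by positivity)),
    fun j => Fin.cons (v j) (u j), ?_, fun j i => ?_, s, hs, fun j => ?_⟩
  · intro a ha
    apply h1 a
    · intro i
      have := ha i.succ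
      simpa using this
    · have := ha 0
      simpa using this
  · refine Fin.cases ?_ (fun l => ?_) i
    · simp only [Fin.cons_zero]
      exact (h3 j).trans (mul_le_mul_of_nonneg_right hc (by positivity))
    · simp only [Fin.cons_succ]
      exact (h2 j l).trans (mul_le_mul_of_nonneg_right hc (by positivity))
  · have h5 : ((∑ i, (Fin.cons (v j) (u j) : Fin (d + 1) → ℤ) i * (Fin.cons (q : ℤ) p : Fin (d + 1) → ℤ) i : ℤ) : ℝ) =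
        ∑ i, (u j i : ℝ) * p i + v j * q := by
      rw [Fin.sum_univ_succ]
      simp only [Fin.cons_zero, Fin.cons_succ]
      push_cast
      ring
    simp only
    rw [h5]
    exact (h4 j).trans (mul_le_mul_of_nonneg_right hc (by positivity))

/-- **Tuples.** Let `P` have at most `C X ^ (ρ + ε)` members with entries at most `X`, for each `ε > 0`. -/
theorem tup {k : ℕ} (P : Set (Fin k → ℕ)) {ρ : ℝ} (hρ : 0 ≤ ρ)
    (hP : ∀ ε : ℝ, 0 < ε → ∃ C : ℝ, ∀ X : ℝ, 1 ≤ X → {s | s ∈ P ∧ ∀ j, (s j : ℝ) ≤ X}.Finite ∧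
      ({s | s ∈ P ∧ ∀ j, (s j : ℝ) ≤ X}.ncard : ℝ) ≤ C * X ^ (ρ + ε))
    (d : ℕ) {σ η θ : ℝ} (hσ : 0 ≤ σ) (hη : 0 ≤ η) (hθ : 0 ≤ θ) (hθ1 : θ ≤ 1) :
    ∃ E : Set (Fin d → ℝ), dimH E ≤ ENNReal.ofReal ((d + 1 - k + (1 + η) * ρ + k * (d + 1) * η + k * θ) / (1 + σ)) ∧
      ∀ α : Fin d → ℝ, α ∉ E → ∀ c : ℝ, ∃ Q : ℕ, ∀ (p : Fin d → ℤ) (q : ℕ), Q ≤ q →
        (∀ i, |α i - p i / q| ≤ c / (q : ℝ) ^ (1 + σ)) → ∀ s : Fin k → ℕ, NearForms η θ c p q s → s ∉ P := by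
  by_cases hk : k ≤ d + 1
  swap
  · refine ⟨∅, by simp, fun α _ c => ⟨1, fun p q hq happ s hs hsP => ?_⟩⟩
    obtain ⟨-, -, U, hU, -⟩ := tbad_of_near le_rfl hq happ hs hsP
    exact hk (pivots U hU).1
  have hkr : (0 : ℝ) ≤ d + 1 - k := by
    have : (k : ℝ) ≤ d + 1 := by exact_mod_cast hk
    linarith
  have h1σ : 0 < 1 + σ := by linarith
  set F : ℕ → Set (Fin d → ℝ) := fun K =>
    {α : Fin d → ℝ | (∀ i, |α i| ≤ (K + 1 : ℕ)) ∧ ∀ n : ℕ, ∃ z ∈ TBad P σ η θ (K + 1 : ℕ) α, n ≤ z.2} with hF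
  have hnn : 0 ≤ (d + 1 - k + (1 + η) * ρ + k * (d + 1) * η + k * θ) / (1 + σ) := by
    apply div_nonneg _ h1σ.le
    have h1 : 0 ≤ (1 + η) * ρ := by positivity
    have h2 : 0 ≤ (k : ℝ) * (d + 1) * η := by positivity
    have h3 : 0 ≤ (k : ℝ) * θ := by positivity
    linarith
  refine ⟨⋃ K, F K, ?_, fun α hαE c => ?_⟩
  · rw [dimH_iUnion]
    apply iSup_le
    intro K
    apply ENNReal.le_of_forall_pos_le_add
    intro ε hε _
    have hε' : (0 : ℝ) < ε := by exact_mod_cast hε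
    set ε1 : ℝ := ε * (1 + σ) / (2 * (1 + η)) with hε1
    have hκ1 : 0 < 1 + η := by linarith
    have hε1p : 0 < ε1 := by positivity
    obtain ⟨C, hC⟩ := hP ε1 hε1p
    have hC' : ∀ X : ℝ, 1 ≤ X → {s | s ∈ P ∧ ∀ j, (s j : ℝ) ≤ X}.Finite ∧
      ({s | s ∈ P ∧ ∀ j, (s j : ℝ) ≤ X}.ncard : ℝ) ≤ |C| * X ^ (ρ + ε1) := by
      intro X hX
      exact ⟨(hC X hX).1, (hC X hX).2.trans (mul_le_mul_of_nonneg_right (le_abs_self C) (by positivity))⟩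
    have h1 := tup_bounded (d := d) hk P (ρ := ρ + ε1) (σ := σ) (η := η) (θ := θ)
      (D := (d + 1 - k + (1 + η) * ρ + k * (d + 1) * η + k * θ) / (1 + σ) + ε) (by positivity) hσ hη hθ hθ1 (by
        have h0 : ((d + 1 - k + (1 + η) * ρ + k * (d + 1) * η + k * θ) / (1 + σ) + ε) * (1 + σ) =
            (d + 1 - k + (1 + η) * ρ + k * (d + 1) * η + k * θ) + ε * (1 + σ) := by
          field_simp
        have h3 : (1 + η) * ε1 = ε * (1 + σ) / 2 := by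
          rw [hε1]
          field_simp
        have h2 : 0 < (ε : ℝ) * (1 + σ) := by positivity
        rw [h0]
        linarith) |C| (abs_nonneg C) hC' (K + 1) (by omega)
    rw [ENNReal.ofReal_add hnn hε'.le, ENNReal.ofReal_coe_nnreal] at h1
    exact h1
  · obtain ⟨K, hK⟩ : ∃ K : ℕ, c ≤ K ∧ ∀ i, |α i| ≤ K := by
      obtain ⟨K1, hK1⟩ := exists_nat_ge c
      obtain ⟨K2, hK2⟩ := exists_nat_ge (∑ i, |α i|)
      refine ⟨max K1 K2, hK1.trans (by exact_mod_cast le_max_left _ _), fun i => ?_⟩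
      exact ((Finset.single_le_sum (f := fun i => |α i|) (fun i _ => abs_nonneg _) (mem_univ i)).trans hK2).trans
        (by exact_mod_cast le_max_right _ _)
    have h1 : α ∉ F K := fun h => hαE (Set.mem_iUnion.2 ⟨_, h⟩)
    by_contra hcon
    push Not at hcon
    apply h1
    have hcK : c ≤ ((K + 1 : ℕ) : ℝ) := by
      push_cast
      linarith [hK.1]
    refine ⟨fun i => (hK.2 i).trans (by push_cast; linarith), fun n => ?_⟩
    obtain ⟨p, q, hq, happ, s, hs, hsP⟩ := hcon (n + 1)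
    exact ⟨(p, q), tbad_of_near hcK (by omega) happ hs hsP, by simp only; omega⟩

lemma log_bound (ε : ℝ) (hε : 0 < ε) (L : ℕ) (X : ℝ) (hX : (2 : ℝ) ^ L ≤ X) :
    ((L : ℝ) + 1) ≤ (1 / (ε * Real.log 2) + 1) * X ^ ε := by
  have hl : 0 < Real.log 2 := Real.log_pos one_lt_two
  have h0 : (0 : ℝ) < 2 ^ L := by positivity
  have h1 : (L : ℝ) * (ε * Real.log 2) ≤ (2 : ℝ) ^ (L * ε) := by
    rw [Real.rpow_def_of_pos two_pos]
    have := Real.add_one_le_exp (Real.log 2 * (L * ε))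
    linarith [mul_comm (L : ℝ) (ε * Real.log 2)]
  have h2 : (2 : ℝ) ^ (L * ε) ≤ X ^ ε := by
    rw [Real.rpow_mul two_pos.le, Real.rpow_natCast]
    exact Real.rpow_le_rpow h0.le hX hε.le
  have h3 : (1 : ℝ) ≤ X ^ ε := Real.one_le_rpow (le_trans (one_le_pow₀ one_le_two) hX) hε.le
  have h4 : (L : ℝ) ≤ 1 / (ε * Real.log 2) * X ^ ε := by
    rw [div_mul_eq_mul_div, one_mul, le_div_iff₀ (by positivity)]
    exact h1.trans h2
  linarith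

/-- **Tuples, scale form.** Let `E H s` be a property of tuples, monotone in `H`, such that for each `κ` there is `K` such
that for all `C` and all large `N` at most `K N ^ (k - 1)` tuples in `[N, κ N] ^ k` have the property `E (C ^ N)`. -/
theorem few {k : ℕ} (hk : 1 ≤ k) (E : ℝ → (Fin k → ℕ) → Prop) (hE : ∀ H H' s, H ≤ H' → E H s → E H' s)
    (h : ∀ κ : ℕ, ∃ K : ℕ, ∀ C : ℝ, ∃ N₀ : ℕ, ∀ N : ℕ, N₀ ≤ N →
      {s : Fin k → ℕ | (∀ j, N ≤ s j ∧ s j ≤ κ * N) ∧ E (C ^ N) s}.ncard ≤ K * N ^ (k - 1))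
    (d : ℕ) {σ η θ : ℝ} (hσ : 0 ≤ σ) (hη : 0 ≤ η) (hθ : 0 ≤ θ) (hθ1 : θ ≤ 1) :
    ∃ F : Set (Fin d → ℝ), dimH F ≤ ENNReal.ofReal ((d + (k * (d + 2) - 1) * η + k * θ) / (1 + σ)) ∧
      ∀ α : Fin d → ℝ, α ∉ F → ∀ C c : ℝ, ∃ Q : ℕ, ∀ (p : Fin d → ℤ) (q : ℕ), Q ≤ q →
        (∀ i, |α i - p i / q| ≤ c / (q : ℝ) ^ (1 + σ)) → ∀ s : Fin k → ℕ, (∀ i j, (s i : ℝ) ≤ c * s j) →
          (∀ j, (q : ℝ) ≤ c * s j) → NearForms η θ c p q s → ¬ E (C ^ q) s := by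
  have hkr : (1 : ℝ) ≤ k := by exact_mod_cast hk
  have hkk : ((k - 1 : ℕ) : ℝ) = (k : ℝ) - 1 := by
    rw [Nat.cast_sub hk, Nat.cast_one]
  choose K hK using h
  choose N₀ hN₀ using hK
  set P : ℕ × ℕ → Set (Fin k → ℕ) := fun z => {s | ∃ l : ℕ, N₀ (2 * z.1) ((z.2 : ℝ) ^ (2 * z.1)) ≤ 2 ^ l ∧
    (∀ j, 2 ^ l ≤ s j ∧ s j ≤ (2 * z.1) * 2 ^ l) ∧ E ((((z.2 : ℝ)) ^ (2 * z.1)) ^ (2 ^ l)) s} with hP
  have hcount : ∀ z : ℕ × ℕ, ∀ ε : ℝ, 0 < ε → ∃ C : ℝ, ∀ X : ℝ, 1 ≤ X → {s | s ∈ P z ∧ ∀ j, (s j : ℝ) ≤ X}.Finite ∧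
      ({s | s ∈ P z ∧ ∀ j, (s j : ℝ) ≤ X}.ncard : ℝ) ≤ C * X ^ (((k : ℝ) - 1) + ε) := by
    intro z ε hε
    refine ⟨(1 / (ε * Real.log 2) + 1) * (K (2 * z.1) : ℝ), fun X hX => ?_⟩
    have hX0 : 0 < X := by linarith
    have hfin : {s : Fin k → ℕ | s ∈ P z ∧ ∀ j, (s j : ℝ) ≤ X}.Finite := by
      refine (Set.Finite.pi' (t := fun _ : Fin k => Set.Iic ⌊X⌋₊) fun _ => Set.finite_Iic _).subset ?_
      intro s hs j
      exact Nat.le_floor (hs.2 j)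
    refine ⟨hfin, ?_⟩
    set L := Nat.log 2 ⌊X⌋₊ with hL
    have hfl : 1 ≤ ⌊X⌋₊ := Nat.le_floor (by exact_mod_cast hX)
    have hLX : (2 : ℝ) ^ L ≤ X := by
      have h1 : 2 ^ L ≤ ⌊X⌋₊ := Nat.pow_log_le_self 2 (by omega)
      have h2 : ((2 ^ L : ℕ) : ℝ) ≤ (⌊X⌋₊ : ℝ) := by exact_mod_cast h1
      have h3 : (⌊X⌋₊ : ℝ) ≤ X := Nat.floor_le hX0.le
      push_cast at h2
      linarith
    have hbl : ∀ l, {s : Fin k → ℕ | N₀ (2 * z.1) ((z.2 : ℝ) ^ (2 * z.1)) ≤ 2 ^ l ∧ (∀ j, 2 ^ l ≤ s j ∧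
        s j ≤ (2 * z.1) * 2 ^ l) ∧ E ((((z.2 : ℝ)) ^ (2 * z.1)) ^ (2 ^ l)) s}.Finite ∧
        {s : Fin k → ℕ | N₀ (2 * z.1) ((z.2 : ℝ) ^ (2 * z.1)) ≤ 2 ^ l ∧ (∀ j, 2 ^ l ≤ s j ∧
        s j ≤ (2 * z.1) * 2 ^ l) ∧ E ((((z.2 : ℝ)) ^ (2 * z.1)) ^ (2 ^ l)) s}.ncard ≤
          K (2 * z.1) * (2 ^ l) ^ (k - 1) := by
      intro l
      have hf1 : {s : Fin k → ℕ | (∀ j, 2 ^ l ≤ s j ∧ s j ≤ (2 * z.1) * 2 ^ l) ∧
          E ((((z.2 : ℝ)) ^ (2 * z.1)) ^ (2 ^ l)) s}.Finite := by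
        refine (Set.Finite.pi' (t := fun _ : Fin k => Set.Iic ((2 * z.1) * 2 ^ l)) fun _ => Set.finite_Iic _).subset ?_
        intro s hs j
        exact (hs.1 j).2
      refine ⟨hf1.subset fun s hs => hs.2, ?_⟩
      by_cases hl : N₀ (2 * z.1) ((z.2 : ℝ) ^ (2 * z.1)) ≤ 2 ^ l
      · refine (Set.ncard_le_ncard (fun s hs => hs.2) hf1).trans ?_
        exact hN₀ (2 * z.1) ((z.2 : ℝ) ^ (2 * z.1)) (2 ^ l) hl
      · have : {s : Fin k → ℕ | N₀ (2 * z.1) ((z.2 : ℝ) ^ (2 * z.1)) ≤ 2 ^ l ∧ (∀ j, 2 ^ l ≤ s j ∧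
          s j ≤ (2 * z.1) * 2 ^ l) ∧ E ((((z.2 : ℝ)) ^ (2 * z.1)) ^ (2 ^ l)) s} = ∅ := by
          ext s
          simp only [Set.mem_ofPred_eq, Set.mem_empty_iff_false, iff_false]
          exact fun h => hl h.1
        rw [this, Set.ncard_empty]
        exact Nat.zero_le _
    set B : ℕ → Finset (Fin k → ℕ) := fun l => (hbl l).1.toFinset with hB
    have hsub : {s | s ∈ P z ∧ ∀ j, (s j : ℝ) ≤ X} ⊆ (((range (L + 1)).biUnion B : Finset (Fin k → ℕ)) :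
        Set (Fin k → ℕ)) := by
      rintro s ⟨⟨l, h1, h2, h3⟩, h4⟩
      rw [mem_coe, mem_biUnion]
      refine ⟨l, ?_, ?_⟩
      · rw [mem_range, Nat.lt_succ_iff, hL]
        apply Nat.le_log_of_pow_le (by norm_num)
        exact (h2 ⟨0, hk⟩).1.trans (Nat.le_floor (h4 ⟨0, hk⟩))
      · rw [hB, Set.Finite.mem_toFinset]
        exact ⟨h1, h2, h3⟩
    have h1 := (Set.ncard_le_ncard hsub (Finset.finite_toSet _))
    rw [Set.ncard_coe_finset] at h1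
    have h2 : ((range (L + 1)).biUnion B).card ≤ ∑ l ∈ range (L + 1), K (2 * z.1) * (2 ^ L) ^ (k - 1) := by
      refine Finset.card_biUnion_le.trans (Finset.sum_le_sum fun l hl => ?_)
      rw [mem_range, Nat.lt_succ_iff] at hl
      have h3 := (hbl l).2
      rw [Set.ncard_eq_toFinset_card _ (hbl l).1] at h3
      refine h3.trans (Nat.mul_le_mul_left _ (Nat.pow_le_pow_left ?_ _))
      exact Nat.pow_le_pow_right (by norm_num) hl
    rw [Finset.sum_const, Finset.card_range, smul_eq_mul] at h2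
    have h3 : ({s | s ∈ P z ∧ ∀ j, (s j : ℝ) ≤ X}.ncard : ℝ) ≤
        ((L : ℝ) + 1) * ((K (2 * z.1) : ℝ) * ((2 : ℝ) ^ L) ^ (k - 1)) := by
      exact_mod_cast h1.trans h2
    have h4 : ((2 : ℝ) ^ L) ^ (k - 1) ≤ X ^ ((k : ℝ) - 1) := by
      rw [← hkk, Real.rpow_natCast]
      exact pow_le_pow_left₀ (by positivity) hLX _
    have h5 := log_bound ε hε L X hLX
    have h6 : (0 : ℝ) ≤ 1 / (ε * Real.log 2) + 1 := by
      have := Real.log_pos one_lt_two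
      positivity
    calc ({s | s ∈ P z ∧ ∀ j, (s j : ℝ) ≤ X}.ncard : ℝ)
        ≤ ((L : ℝ) + 1) * ((K (2 * z.1) : ℝ) * ((2 : ℝ) ^ L) ^ (k - 1)) := h3
      _ ≤ ((1 / (ε * Real.log 2) + 1) * X ^ ε) * ((K (2 * z.1) : ℝ) * X ^ ((k : ℝ) - 1)) := by
          gcongr
      _ = (1 / (ε * Real.log 2) + 1) * (K (2 * z.1) : ℝ) * X ^ (((k : ℝ) - 1) + ε) := by
          rw [Real.rpow_add hX0]
          ring
  have hall : ∀ z : ℕ × ℕ, ∃ F : Set (Fin d → ℝ),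
      dimH F ≤ ENNReal.ofReal ((d + (k * (d + 2) - 1) * η + k * θ) / (1 + σ)) ∧
      ∀ α : Fin d → ℝ, α ∉ F → ∀ c : ℝ, ∃ Q : ℕ, ∀ (p : Fin d → ℤ) (q : ℕ), Q ≤ q →
        (∀ i, |α i - p i / q| ≤ c / (q : ℝ) ^ (1 + σ)) → ∀ s : Fin k → ℕ, NearForms η θ c p q s → s ∉ P z := by
    intro z
    obtain ⟨F, hF, h1⟩ := tup (P z) (ρ := (k : ℝ) - 1) (by linarith) (hcount z) d hσ hη hθ hθ1
    refine ⟨F, hF.trans (le_of_eq ?_), h1⟩
    congr 2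
    ring
  choose F hF hF2 using hall
  refine ⟨⋃ z, F z, ?_, fun α hα C c => ?_⟩
  · rw [dimH_iUnion]
    exact iSup_le hF
  · obtain ⟨K0, hK0⟩ := exists_nat_ge (max c 1)
    obtain ⟨C0, hC0⟩ := exists_nat_ge (max |C| 1)
    have hcK : c ≤ K0 := (le_max_left _ _).trans hK0
    have hK1 : (1 : ℝ) ≤ K0 := (le_max_right _ _).trans hK0
    have hK1' : 1 ≤ K0 := by exact_mod_cast hK1
    have hCC : |C| ≤ C0 := (le_max_left _ _).trans hC0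
    have hC1 : (1 : ℝ) ≤ C0 := (le_max_right _ _).trans hC0
    obtain ⟨Q, hQ⟩ := hF2 (K0, C0) α (fun h => hα (Set.mem_iUnion.2 ⟨_, h⟩)) c
    refine ⟨max (max Q 1) (2 * K0 * (N₀ (2 * K0) ((C0 : ℝ) ^ (2 * K0)) + 1)), fun p q hq happ s hs1 hs2 hs3 hbad => ?_⟩
    refine hQ p q (((le_max_left _ _).trans (le_max_left _ _)).trans hq) happ s hs3 ?_
    have hq1 : 1 ≤ q := ((le_max_right _ _).trans (le_max_left _ _)).trans hq
    have hq2 : 2 * K0 * (N₀ (2 * K0) ((C0 : ℝ) ^ (2 * K0)) + 1) ≤ q := (le_max_right _ _).trans hq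
    obtain ⟨j0, -, hj0⟩ := Finset.exists_min_image (univ : Finset (Fin k)) s ⟨⟨0, hk⟩, mem_univ _⟩
    have hqm : q ≤ K0 * s j0 := by
      have h1 : (q : ℝ) ≤ K0 * s j0 := (hs2 j0).trans (mul_le_mul_of_nonneg_right hcK (Nat.cast_nonneg _))
      exact_mod_cast h1
    have hs0 : s j0 ≠ 0 := by
      rintro h
      rw [h] at hqm
      omega
    set l := Nat.log 2 (s j0) with hl
    have hl1 : 2 ^ l ≤ s j0 := Nat.pow_log_le_self 2 hs0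
    have hl2 : s j0 < 2 ^ (l + 1) := Nat.lt_pow_succ_log_self (by norm_num) _
    have hl3 : s j0 ≤ 2 * 2 ^ l := by
      rw [pow_succ] at hl2
      omega
    have hql : q ≤ 2 * K0 * 2 ^ l := by
      calc q ≤ K0 * s j0 := hqm
        _ ≤ K0 * (2 * 2 ^ l) := Nat.mul_le_mul_left _ hl3
        _ = 2 * K0 * 2 ^ l := by ring
    refine ⟨l, ?_, fun j => ⟨hl1.trans (hj0 j (mem_univ _)), ?_⟩, hE _ _ s ?_ hbad⟩
    · simp only
      have h1 : 2 * K0 * (N₀ (2 * K0) ((C0 : ℝ) ^ (2 * K0)) + 1) ≤ 2 * K0 * 2 ^ l := hq2.trans hql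
      have h2 := Nat.le_of_mul_le_mul_left h1 (by omega)
      omega
    · simp only
      have h1 : s j ≤ K0 * s j0 := by
        have h2 : (s j : ℝ) ≤ K0 * s j0 := (hs1 j j0).trans (mul_le_mul_of_nonneg_right hcK (Nat.cast_nonneg _))
        exact_mod_cast h2
      calc s j ≤ K0 * s j0 := h1
        _ ≤ K0 * (2 * 2 ^ l) := Nat.mul_le_mul_left _ hl3
        _ = 2 * K0 * 2 ^ l := by ring
    · simp only
      rw [← pow_mul]
      calc C ^ q ≤ |C ^ q| := le_abs_self _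
        _ = |C| ^ q := abs_pow C q
        _ ≤ (C0 : ℝ) ^ q := pow_le_pow_left₀ (abs_nonneg C) hCC _
        _ ≤ (C0 : ℝ) ^ (2 * K0 * 2 ^ l) := pow_le_pow_right₀ hC1 hql

end Run7.h467.GA
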