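import Pool.Agent.Run7.h467.GA.Few

/-! Tuples of integers of arbitrary sign near independent small integral forms in the entries of good approximations, for a
set of exceptional tuples with a saving `e`. -/

set_option autoImplicit false

open Finset Filter Topology MeasureTheory

namespace Run7.h467.GA

open scoped ENNReal NNReal

/-- The members of the tuple `t` of integers are at distance at most `c q ^ θ` from the values `u_j · p + v_j q` of linearly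
independent integral linear forms with coefficients at most `c q ^ η`. -/
def NearFormsInt {d k : ℕ} (η θ c : ℝ) (p : Fin d → ℤ) (q : ℕ) (t : Fin k → ℤ) : Prop :=
  ∃ (u : Fin k → Fin d → ℤ) (v : Fin k → ℤ),
    (∀ a : Fin k → ℤ, (∀ i, ∑ j, a j * u j i = 0) → ∑ j, a j * v j = 0 → a = 0) ∧
    (∀ j i, |(u j i : ℝ)| ≤ c * (q : ℝ) ^ η) ∧ (∀ j, |(v j : ℝ)| ≤ c * (q : ℝ) ^ η) ∧
    ∀ j, |(t j : ℝ) - (∑ i, (u j i : ℝ) * p i + v j * q)| ≤ c * (q : ℝ) ^ θ

/-- change of signs -/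
lemma near_natAbs {d k : ℕ} {η θ c : ℝ} {p : Fin d → ℤ} {q : ℕ} {t : Fin k → ℤ} (ht : ∀ j, t j ≠ 0)
    (h : NearFormsInt η θ c p q t) : NearForms η θ c p q (fun j => (t j).natAbs) := by
  obtain ⟨u, v, h1, h2, h3, h4⟩ := h
  have hs : ∀ j, (t j).sign * (t j).sign = 1 := by
    intro j
    rcases lt_trichotomy (t j) 0 with h | h | h
    · rw [Int.sign_eq_neg_one_of_neg h]; norm_num
    · exact absurd h (ht j)
    · rw [Int.sign_eq_one_of_pos h]; norm_num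
  have habs : ∀ j, |((t j).sign : ℝ)| = 1 := by
    intro j
    have h5 : (((t j).sign : ℤ) : ℝ) * ((t j).sign : ℤ) = 1 := by exact_mod_cast hs j
    have h6 : |((t j).sign : ℝ)| * |((t j).sign : ℝ)| = 1 := by rw [← abs_mul, h5, abs_one]
    nlinarith [abs_nonneg ((t j).sign : ℝ)]
  refine ⟨fun j i => (t j).sign * u j i, fun j => (t j).sign * v j, fun a ha hb => ?_, fun j i => ?_, fun j => ?_,
    fun j => ?_⟩
  · have h5 := h1 (fun j => a j * (t j).sign) (fun i => by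
      rw [← ha i]
      exact Finset.sum_congr rfl fun j _ => by ring) (by
      rw [← hb]
      exact Finset.sum_congr rfl fun j _ => by ring)
    funext j
    have h6 := congrFun h5 j
    simp only [Pi.zero_apply] at h6 ⊢
    rcases mul_eq_zero.1 h6 with h7 | h7
    · exact h7
    · exact absurd (Int.sign_eq_zero_iff_zero.1 h7) (ht j)
  · push_cast
    rw [abs_mul, habs j, one_mul]
    exact h2 j i
  · push_cast
    rw [abs_mul, habs j, one_mul]
    exact h3 j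
  · have h5 : (((t j).natAbs : ℕ) : ℝ) = ((t j).sign : ℝ) * t j := by
      have h6 : (((t j).natAbs : ℕ) : ℤ) = (t j).sign * t j := by
        rw [Int.sign_mul_self_eq_natAbs]
      have h7 := congrArg (fun z : ℤ => (z : ℝ)) h6
      simp only [Int.cast_natCast, Int.cast_mul] at h7
      exact h7
    simp only
    rw [h5]
    have h7 : ((t j).sign : ℝ) * t j - (∑ i, (((t j).sign * u j i : ℤ) : ℝ) * p i + (((t j).sign * v j : ℤ) : ℝ) * q) =
        ((t j).sign : ℝ) * (t j - (∑ i, (u j i : ℝ) * p i + v j * q)) := by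
      push_cast
      rw [mul_sub, mul_add, Finset.mul_sum]
      congr 2
      · exact Finset.sum_congr rfl fun i _ => by ring
      · ring
    rw [h7, abs_mul, habs j, one_mul]
    exact h4 j

/-- **Tuples of integers.** For each `N ≥ 1` let every finite set of tuples `t` of integers with `0 < |t_j| ≤ N` and the
property `E` have at most `C N ^ (k - e)` members. -/
theorem tup_int {k : ℕ} (hk : 1 ≤ k) (E : (Fin k → ℤ) → Prop) {e : ℝ} (he1 : e ≤ 1) (C : ℝ)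
    (hE : ∀ N : ℕ, 1 ≤ N → ∀ S : Finset (Fin k → ℤ), (∀ t ∈ S, (∀ j, 0 < |t j| ∧ |t j| ≤ N) ∧ E t) →
      (S.card : ℝ) ≤ C * (N : ℝ) ^ ((k : ℝ) - e))
    (d : ℕ) {σ η θ : ℝ} (hσ : 0 ≤ σ) (hη : 0 ≤ η) (hθ : 0 ≤ θ) (hθ1 : θ ≤ 1) :
    ∃ F : Set (Fin d → ℝ), dimH F ≤ ENNReal.ofReal ((d + 1 - e + (k * (d + 2) - e) * η + k * θ) / (1 + σ)) ∧
      ∀ α : Fin d → ℝ, α ∉ F → ∀ c : ℝ, ∃ Q : ℕ, ∀ (p : Fin d → ℤ) (q : ℕ), Q ≤ q →
        (∀ i, |α i - p i / q| ≤ c / (q : ℝ) ^ (1 + σ)) → ∀ t : Fin k → ℤ, (∀ j, t j ≠ 0) →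
          NearFormsInt η θ c p q t → ¬ E t := by
  classical
  have hkr : (1 : ℝ) ≤ k := by exact_mod_cast hk
  set P : Set (Fin k → ℕ) := {s | ∃ t : Fin k → ℤ, (∀ j, (t j).natAbs = s j) ∧ (∀ j, t j ≠ 0) ∧ E t} with hP
  obtain ⟨F, hF, h⟩ := tup P (ρ := (k : ℝ) - e) (by linarith) (by
    intro ε hε
    refine ⟨|C|, fun X hX => ?_⟩
    have hX0 : 0 < X := by linarith
    have hfin : {s : Fin k → ℕ | s ∈ P ∧ ∀ j, (s j : ℝ) ≤ X}.Finite := by
      refine (Set.Finite.pi' (t := fun _ : Fin k => Set.Iic ⌊X⌋₊) fun _ => Set.finite_Iic _).subset ?_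
      intro s hs j
      exact Nat.le_floor (hs.2 j)
    refine ⟨hfin, ?_⟩
    have hN : 1 ≤ ⌊X⌋₊ := Nat.le_floor (by exact_mod_cast hX)
    set S : Finset (Fin k → ℤ) := (Fintype.piFinset fun _ : Fin k => Icc (-((⌊X⌋₊ : ℕ) : ℤ)) ((⌊X⌋₊ : ℕ) : ℤ)).filter
      (fun t => (∀ j, t j ≠ 0) ∧ E t) with hS
    have hsub : {s : Fin k → ℕ | s ∈ P ∧ ∀ j, (s j : ℝ) ≤ X} ⊆
        ((S.image fun t j => (t j).natAbs : Finset (Fin k → ℕ)) : Set (Fin k → ℕ)) := by
      rintro s ⟨⟨t, h1, h2, h3⟩, h4⟩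
      rw [mem_coe, mem_image]
      refine ⟨t, ?_, funext h1⟩
      rw [hS, mem_filter, Fintype.mem_piFinset]
      refine ⟨fun j => ?_, h2, h3⟩
      rw [mem_Icc, ← abs_le]
      have h5 : s j ≤ ⌊X⌋₊ := Nat.le_floor (h4 j)
      rw [← h1 j] at h5
      rw [Int.abs_eq_natAbs]
      exact_mod_cast h5
    have h1 := Set.ncard_le_ncard hsub (Finset.finite_toSet _)
    rw [Set.ncard_coe_finset] at h1
    have h2 := h1.trans Finset.card_image_le
    have h3 := hE ⌊X⌋₊ hN S (fun t ht => by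
      rw [hS, mem_filter, Fintype.mem_piFinset] at ht
      refine ⟨fun j => ⟨abs_pos.2 (ht.2.1 j), ?_⟩, ht.2.2⟩
      have h5 := ht.1 j
      rw [mem_Icc, ← abs_le] at h5
      exact h5)
    have h4 : ((⌊X⌋₊ : ℕ) : ℝ) ^ ((k : ℝ) - e) ≤ X ^ ((k : ℝ) - e + ε) := by
      refine (Real.rpow_le_rpow (Nat.cast_nonneg _) (Nat.floor_le hX0.le) (by linarith)).trans ?_
      exact Real.rpow_le_rpow_of_exponent_le hX (by linarith)
    calc ({s : Fin k → ℕ | s ∈ P ∧ ∀ j, (s j : ℝ) ≤ X}.ncard : ℝ) ≤ (S.card : ℝ) := by exact_mod_cast h2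
      _ ≤ C * ((⌊X⌋₊ : ℕ) : ℝ) ^ ((k : ℝ) - e) := h3
      _ ≤ |C| * ((⌊X⌋₊ : ℕ) : ℝ) ^ ((k : ℝ) - e) := mul_le_mul_of_nonneg_right (le_abs_self C) (by positivity)
      _ ≤ |C| * X ^ ((k : ℝ) - e + ε) := mul_le_mul_of_nonneg_left h4 (abs_nonneg C)) d hσ hη hθ hθ1
  refine ⟨F, hF.trans (le_of_eq ?_), fun α hα c => ?_⟩
  · congr 2
    ring
  · obtain ⟨Q, hQ⟩ := h α hα c
    refine ⟨Q, fun p q hq happ t ht hn hEt => ?_⟩
    exact hQ p q hq happ _ (near_natAbs ht hn) ⟨t, fun _ => rfl, ht, hEt⟩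

end Run7.h467.GA
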