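import Pool.Agent.Run7.h467.GA.Cover

/-! Points near the members of finite sets of rational tuples given for all dyadic scales. -/

set_option autoImplicit false

open Finset Filter Topology MeasureTheory

namespace Run7.h467.GA

open scoped ENNReal NNReal

/-- If the set of tuples of level `j` has at most `C (2 ^ (j + 1)) ^ e` members, the points which are at distance at most
`K (2 ^ j) ^ (-ω)` from a member of level `j` for infinitely many `j` form a set of dimension at most `e / ω`. -/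
theorem levels {n : ℕ} (S : ℕ → Set (Fin n → ℚ)) {e ω D : ℝ} (he : 0 ≤ e) (hω : 0 < ω) (hD : e < ω * D) (C : ℝ)
    (hC : 0 ≤ C) (hS : ∀ j, (S j).Finite ∧ ((S j).ncard : ℝ) ≤ C * ((2 : ℝ) ^ (j + 1)) ^ e) (K : ℝ) (hK : 0 < K) :
    dimH {ξ : Fin n → ℝ | ∀ m : ℕ, ∃ j : ℕ, m ≤ j ∧ ∃ x ∈ S j, ∀ k, |ξ k - x k| ≤ K * ((2 : ℝ) ^ j) ^ (-ω)} ≤
      ENNReal.ofReal D := by
  have hD0 : 0 < D := by
    have h1 : 0 < ω * D := lt_of_le_of_lt he hD
    exact (pos_iff_pos_of_mul_pos h1).1 hω
  set r : ℕ → ℝ := fun j => K * ((2 : ℝ) ^ j) ^ (-ω) with hr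
  have hr0 : ∀ j, 0 < r j := fun j => by positivity
  have hrt : Tendsto r atTop (𝓝 0) := by
    have h1 : Tendsto (fun j : ℕ => (2 : ℝ) ^ j) atTop atTop := tendsto_pow_atTop_atTop_of_one_lt (by norm_num)
    have h2 := ((tendsto_rpow_neg_atTop hω).comp h1).const_mul K
    rw [mul_zero] at h2
    exact h2
  set w : ℕ → ℝ := fun j => (C * (2 : ℝ) ^ e * (2 * K) ^ D) * ((2 : ℝ) ^ (e - ω * D)) ^ j with hw
  have hws : Summable w := by
    apply Summable.mul_left
    apply summable_geometric_of_lt_one (by positivity)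
    exact Real.rpow_lt_one_of_one_lt_of_neg (by norm_num) (by linarith)
  refine dim_cover (fun j => (hS j).1.toFinset) (fun _ x k => ((x k : ℚ) : ℝ)) r hr0 hrt D hD0 w hws ?_ _ ?_
  · intro j
    have h1 := (hS j).2
    rw [Set.ncard_eq_toFinset_card _ (hS j).1] at h1
    have hj : (0 : ℝ) < 2 ^ j := by positivity
    calc (((hS j).1.toFinset.card : ℕ) : ℝ) * (2 * r j) ^ D ≤ (C * ((2 : ℝ) ^ (j + 1)) ^ e) * (2 * r j) ^ D :=
          mul_le_mul_of_nonneg_right h1 (by positivity)
      _ = w j := by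
          rw [hw, hr]
          simp only
          have e1 : 2 * (K * ((2 : ℝ) ^ j) ^ (-ω)) = (2 * K) * ((2 : ℝ) ^ j) ^ (-ω) := by ring
          rw [e1, Real.mul_rpow (by positivity) (by positivity), pow_succ, Real.mul_rpow hj.le (by norm_num),
            ← Real.rpow_mul hj.le]
          have e2 : ((2 : ℝ) ^ (e - ω * D)) ^ j = ((2 : ℝ) ^ j) ^ e * ((2 : ℝ) ^ j) ^ (-ω * D) := by
            rw [← Real.rpow_add hj, ← Real.rpow_natCast, ← Real.rpow_mul (by norm_num), ← Real.rpow_natCast 2 j,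
              ← Real.rpow_mul (by norm_num)]
            congr 1
            ring
          rw [e2]
          ring
  · rintro ξ hξ m
    obtain ⟨j, hj, x, hx, h⟩ := hξ m
    refine ⟨j, hj, x, (hS j).1.mem_toFinset.2 hx, ?_⟩
    rw [edist_pi_le_iff]
    intro k
    rw [edist_dist, Real.dist_eq]
    exact ENNReal.ofReal_le_ofReal (h k)

end Run7.h467.GA
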