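import Pool.Agent.Run7.h467.GA.Few

/-! Tuples near forms: the property of a point, its metric form, and one odd number near a denominator. -/

set_option autoImplicit false

open Finset Filter Topology MeasureTheory

namespace Run7.h467.GA

open scoped ENNReal NNReal

/-- the property `E` fails for all comparable tuples near independent forms at all good approximations of `α` -/
def Holds {d k : ℕ} (σ η θ : ℝ) (E : ℝ → (Fin k → ℕ) → Prop) (α : Fin d → ℝ) : Prop :=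
  ∀ C c : ℝ, ∃ Q : ℕ, ∀ (p : Fin d → ℤ) (q : ℕ), Q ≤ q → (∀ i, |α i - p i / q| ≤ c / (q : ℝ) ^ (1 + σ)) →
    ∀ s : Fin k → ℕ, (∀ i j, (s i : ℝ) ≤ c * s j) → (∀ j, (q : ℝ) ≤ c * s j) → NearForms η θ c p q s → ¬ E (C ^ q) s

/-- countably many properties at once -/
theorem metric {k : ℕ} (hk : 1 ≤ k) {I : Type} [Countable I] (A : I → Prop) (E : I → ℝ → (Fin k → ℕ) → Prop)
    (hE : ∀ i H H' s, H ≤ H' → E i H s → E i H' s)
    (h : ∀ i, A i → ∀ κ : ℕ, ∃ K : ℕ, ∀ C : ℝ, ∃ N₀ : ℕ, ∀ N : ℕ, N₀ ≤ N →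
      {s : Fin k → ℕ | (∀ j, N ≤ s j ∧ s j ≤ κ * N) ∧ E i (C ^ N) s}.ncard ≤ K * N ^ (k - 1))
    (d : ℕ) {σ η θ : ℝ} (hσ : 0 ≤ σ) (hη : 0 ≤ η) (hθ : 0 ≤ θ) (hθ1 : θ ≤ 1) :
    dimH {α : Fin d → ℝ | ∃ i, A i ∧ ¬ Holds σ η θ (E i) α} ≤
      ENNReal.ofReal ((d + (k * (d + 2) - 1) * η + k * θ) / (1 + σ)) := by
  have hall : ∀ i, ∃ F : Set (Fin d → ℝ), dimH F ≤ ENNReal.ofReal ((d + (k * (d + 2) - 1) * η + k * θ) / (1 + σ)) ∧
      ∀ α : Fin d → ℝ, α ∉ F → A i → Holds σ η θ (E i) α := by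
    intro i
    by_cases hi : A i
    · obtain ⟨F, h1, h2⟩ := few hk (E i) (hE i) (h i hi) d hσ hη hθ hθ1
      exact ⟨F, h1, fun α hα _ => h2 α hα⟩
    · exact ⟨∅, by simp, fun α _ h => absurd h hi⟩
  choose F hF1 hF2 using hall
  refine (dimH_mono (t := ⋃ i, F i) ?_).trans ?_
  · rintro α ⟨i, hi, h1⟩
    by_contra h2
    exact h1 (hF2 i α (fun h3 => h2 (Set.mem_iUnion.2 ⟨i, h3⟩)) hi)
  · rw [dimH_iUnion]
    exact iSup_le hF1

/-- every real number has approximations with large denominators -/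
theorem dirichlet (x : ℝ) (Q : ℕ) : ∃ (p : ℤ) (q : ℕ), Q ≤ q ∧ 1 ≤ q ∧ |x - p / q| ≤ 1 / (q : ℝ) ^ 2 := by
  obtain ⟨n, hn⟩ : ∃ n : ℕ, n = 4 * (Q + 1) ^ 2 := ⟨_, rfl⟩
  have hn0 : 0 < n := by rw [hn]; positivity
  obtain ⟨j, k, hk0, hkn, h⟩ := Real.exists_int_int_abs_mul_sub_le x hn0
  obtain ⟨k, rfl⟩ := Int.eq_ofNat_of_zero_le hk0.le
  have hk1 : 1 ≤ k := by exact_mod_cast hk0
  have hkn' : k ≤ n := by exact_mod_cast hkn
  set t := Nat.sqrt ((n + 1) / k) with ht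
  have ht1 : 1 ≤ t := by
    rw [ht, Nat.le_sqrt]
    simp only [mul_one]
    rw [Nat.le_div_iff_mul_le (by omega)]
    omega
  have ht2 : t * t * k ≤ n + 1 := by
    calc t * t * k ≤ ((n + 1) / k) * k := Nat.mul_le_mul_right _ (Nat.sqrt_le _)
      _ ≤ n + 1 := Nat.div_mul_le_self _ _
  have ht3 : (n + 1) / k < (t + 1) * (t + 1) := Nat.lt_succ_sqrt _
  have ht4 : n + 1 < (t + 1) * (t + 1) * k := by
    have h1 : (n + 1) / k + 1 ≤ (t + 1) * (t + 1) := ht3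
    have h2 : n + 1 < ((n + 1) / k + 1) * k := by
      have h3 := Nat.div_add_mod (n + 1) k
      have h4 := Nat.mod_lt (n + 1) (show 0 < k by omega)
      nlinarith
    exact h2.trans_le (Nat.mul_le_mul_right _ h1)
  have hq : Q ≤ t * k := by
    by_contra hcon
    push Not at hcon
    have h1 : (t + 1) * (t + 1) * k ≤ (2 * t) * (2 * t) * k :=
      Nat.mul_le_mul_right _ (Nat.mul_le_mul (by omega) (by omega))
    have h2 : (2 * t) * (2 * t) * k ≤ 4 * ((t * k) * (t * k)) := by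
      have : (2 * t) * (2 * t) * k * 1 ≤ (2 * t) * (2 * t) * k * k := Nat.mul_le_mul_left _ hk1
      nlinarith
    have h3 : (t * k) * (t * k) ≤ Q * Q := Nat.mul_le_mul hcon.le hcon.le
    rw [hn] at ht4
    nlinarith
  refine ⟨t * j, t * k, hq, Nat.mul_pos ht1 hk1, ?_⟩
  have htr : (0 : ℝ) < t := by exact_mod_cast ht1
  have hkr : (0 : ℝ) < k := by exact_mod_cast hk1
  have h1 : x - ((t * j : ℤ) : ℝ) / ((t * k : ℕ) : ℝ) = ((k : ℝ) * x - j) / k := by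
    push_cast
    field_simp
  rw [h1, abs_div, abs_of_pos hkr, div_le_div_iff₀ hkr (by positivity)]
  have h2 : |(k : ℝ) * x - j| ≤ 1 / ((n : ℝ) + 1) := by
    rw [Int.cast_natCast] at h
    exact h
  have h3 : ((t * t * k : ℕ) : ℝ) ≤ ((n + 1 : ℕ) : ℝ) := by exact_mod_cast ht2
  push_cast at h3 ⊢
  have hn1 : (0 : ℝ) < (n : ℝ) + 1 := by positivity
  calc |(k : ℝ) * x - j| * ((t : ℝ) * k) ^ 2 ≤ (1 / ((n : ℝ) + 1)) * ((t : ℝ) * k) ^ 2 :=
        mul_le_mul_of_nonneg_right h2 (by positivity)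
    _ = ((t : ℝ) * t * k) * k / ((n : ℝ) + 1) := by ring
    _ ≤ ((n : ℝ) + 1) * k / ((n : ℝ) + 1) := by
        apply div_le_div_of_nonneg_right _ hn1.le
        exact mul_le_mul_of_nonneg_right h3 hkr.le
    _ = 1 * k := by field_simp

/-- an odd number next to a denominator -/
theorem one_point {E : ℝ → (Fin 1 → ℕ) → Prop} (hE : ∀ H H' s, H ≤ H' → E H s → E H' s) {C : ℝ} (hC : 1 ≤ C)
    {α : Fin 1 → ℝ} (h : Holds 1 0 0 E α) (s₁ : ℕ) : ∃ s, s₁ ≤ s ∧ Odd s ∧ ¬ E C (fun _ => s) := by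
  obtain ⟨Q, hQ⟩ := h C 1
  obtain ⟨p, q, h1, h2, h3⟩ := dirichlet (α 0) (max Q s₁)
  obtain ⟨s, hs1, hs2, hs3⟩ : ∃ s, q ≤ s ∧ s ≤ q + 1 ∧ Odd s := by
    rcases Nat.even_or_odd q with h | h
    · exact ⟨q + 1, by omega, le_rfl, h.add_one⟩
    · exact ⟨q, le_rfl, by omega, h⟩
  refine ⟨s, ((le_max_right _ _).trans h1).trans hs1, hs3, fun hcon => ?_⟩
  have h4 : E (C ^ q) (fun _ => s) := hE _ _ _ (by
    calc C = C ^ 1 := (pow_one C).symm
      _ ≤ C ^ q := pow_le_pow_right₀ hC h2) hcon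
  refine hQ (fun _ => p) q ((le_max_left _ _).trans h1) (fun i => ?_) (fun _ => s) (fun i j => by simp) (fun j => ?_)
    ⟨fun _ _ => 0, fun _ => 1, ?_, ?_, ?_, ?_⟩ h4
  · have hi : i = 0 := Subsingleton.elim _ _
    subst hi
    have h5 : (q : ℝ) ^ ((1 : ℝ) + 1) = (q : ℝ) ^ 2 := by
      rw [← Real.rpow_natCast]
      norm_num
    rw [h5]
    exact h3
  · simp only [one_mul]
    exact_mod_cast hs1
  · intro a _ ha
    funext i
    have hi : i = 0 := Subsingleton.elim _ _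
    subst hi
    simpa using ha
  · intro j i
    simp
  · intro j
    simp
  · intro j
    simp only [Int.cast_zero, zero_mul, Finset.sum_const_zero, zero_add, Int.cast_one, one_mul, Real.rpow_zero, mul_one]
    have h6 : (q : ℝ) ≤ s := by exact_mod_cast hs1
    have h7 : (s : ℝ) ≤ q + 1 := by exact_mod_cast hs2
    rw [abs_le]
    constructor <;> linarith

/-- a set of small dimension is not everything -/
theorem exists_point {d : ℕ} (hd : 1 ≤ d) {A : Set (Fin d → ℝ)} {b : ℝ} (hA : dimH A ≤ ENNReal.ofReal b)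
    (hb : b < d) : ∃ α, α ∉ A := by
  by_contra hcon
  push Not at hcon
  have h1 : A = Set.univ := Set.eq_univ_of_forall hcon
  rw [h1, Real.dimH_univ_pi_fin] at hA
  have h2 : (d : ℝ≥0∞) = ENNReal.ofReal d := by simp
  rw [h2] at hA
  have h3 : 0 < (d : ℝ) := by exact_mod_cast hd
  rcases ENNReal.ofReal_le_ofReal_iff'.1 hA with h | h
  · linarith
  · linarith

end Run7.h467.GA
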