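import Mathlib

/-! Pivots: independent integral linear forms are completed by coordinates. -/

set_option autoImplicit false

open Finset

namespace Run7.h467.GA

/-- the rows are linearly independent -/
def Indep {k n : ℕ} (U : Fin k → Fin n → ℤ) : Prop := ∀ a : Fin k → ℤ, (∀ i, ∑ j, a j * U j i = 0) → a = 0

lemma pivots {n k : ℕ} (U : Fin k → Fin n → ℤ) (hU : Indep U) :
    k ≤ n ∧ ∃ J : Fin (n - k) → Fin n, ∀ z : Fin n → ℤ, (∀ i, z (J i) = 0) → (∀ j, ∑ i, U j i * z i = 0) → z = 0 := by
  classical
  set R : Fin k → (Fin n → ℚ) := fun j i => (U j i : ℚ) with hR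
  have hRZ : LinearIndependent ℤ R := by
    rw [Fintype.linearIndependent_iff]
    intro g hg j
    have h1 : g = 0 := by
      apply hU
      intro i
      have h2 := congrFun hg i
      simp only [Finset.sum_apply, Pi.smul_apply, Pi.zero_apply, hR, zsmul_eq_mul] at h2
      have h3 : ((∑ j, g j * U j i : ℤ) : ℚ) = 0 := by
        push_cast
        rw [← h2]
        refine Finset.sum_congr rfl fun j _ => ?_
        simp
      exact_mod_cast h3
    rw [h1]
    rfl
  have hRQ : LinearIndependent ℚ R := (LinearIndependent.iff_fractionRing ℤ ℚ).1 hRZ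
  have hkn : k ≤ n := by
    have := hRQ.fintype_card_le_finrank
    simpa using this
  refine ⟨hkn, ?_⟩
  set e : Fin n → (Fin n → ℚ) := fun i => Pi.single i 1 with he
  obtain ⟨b, hb1, hb2, hb3, hb4⟩ := exists_linearIndepOn_id_extension (K := ℚ) (s := Set.range R)
    (t := Set.range R ∪ Set.range e) hRQ.linearIndepOn_id Set.subset_union_left
  have hspan : Submodule.span ℚ b = ⊤ := by
    rw [eq_top_iff]
    intro v _
    have : v = ∑ i, v i • e i := by
      funext l
      simp [he, Finset.sum_apply, Pi.single_apply]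
    rw [this]
    refine Submodule.sum_mem _ fun i _ => Submodule.smul_mem _ _ ?_
    exact hb3 (Set.mem_union_right _ ⟨i, rfl⟩)
  have hcard : Nat.card b = n := by
    have B : Module.Basis b ℚ (Fin n → ℚ) := Module.Basis.mk (v := ((↑) : b → (Fin n → ℚ))) hb4 (by
      rw [Subtype.range_coe_subtype, Set.setOf_mem_eq, hspan])
    have := Module.finrank_eq_nat_card_basis B
    rw [← this]
    simp
  have hbfin : b.Finite := by
    by_contra hcon
    have h1 : Nat.card b = 0 := by
      have : Infinite b := Set.infinite_coe_iff.2 hcon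
      exact Nat.card_eq_zero_of_infinite
    have h2 : n = 0 := by omega
    subst h2
    have : Subsingleton (Fin 0 → ℚ) := inferInstance
    exact hcon (Set.toFinite b)
  have hrange : (Set.range R).ncard = k := by
    rw [← Set.image_univ, Set.ncard_image_of_injective _ hRQ.injective, Set.ncard_univ]
    simp
  have hdiff : (b \ Set.range R).ncard = n - k := by
    rw [Set.ncard_diff hb2 (Set.finite_range R), hrange]
    congr 1
  have hfin2 : Finite (b \ Set.range R : Set (Fin n → ℚ)) := (hbfin.subset Set.diff_subset).to_subtype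
  have hcard2 : Nat.card (b \ Set.range R : Set (Fin n → ℚ)) = n - k := hdiff
  obtain ⟨f⟩ : Nonempty ((b \ Set.range R : Set (Fin n → ℚ)) ≃ Fin (n - k)) :=
    ⟨Finite.equivFinOfCardEq hcard2⟩
  have hidx : ∀ y : (b \ Set.range R : Set (Fin n → ℚ)), ∃ i, e i = y := by
    rintro ⟨y, hy1, hy2⟩
    rcases hb1 hy1 with h | h
    · exact absurd h hy2
    · exact h
  choose g hg using hidx
  refine ⟨fun i => g (f.symm i), fun z hz1 hz2 => ?_⟩
  set φ : (Fin n → ℚ) →ₗ[ℚ] ℚ := ∑ i, (z i : ℚ) • LinearMap.proj i with hφ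
  have hφv : ∀ v, φ v = ∑ i, (z i : ℚ) * v i := by
    intro v
    simp [hφ]
  have hφe : ∀ i, φ (e i) = z i := by
    intro i
    rw [hφv]
    simp [he, Pi.single_apply]
  have hb0 : ∀ v ∈ b, φ v = 0 := by
    intro v hv
    by_cases hvr : v ∈ Set.range R
    · obtain ⟨j, rfl⟩ := hvr
      rw [hφv]
      have h1 := hz2 j
      have h2 : ((∑ i, U j i * z i : ℤ) : ℚ) = 0 := by rw [h1]; rfl
      push_cast at h2
      rw [← h2]
      exact Finset.sum_congr rfl fun i _ => by rw [hR]; ring
    · have h1 := hg ⟨v, hv, hvr⟩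
      have h2 := hz1 (f ⟨v, hv, hvr⟩)
      simp only [Equiv.symm_apply_apply] at h2
      have h3 : φ v = z (g ⟨v, hv, hvr⟩) := by
        rw [← hφe, h1]
      rw [h3, h2]
      rfl
  have hall : ∀ v, φ v = 0 := by
    intro v
    have hv : v ∈ Submodule.span ℚ b := by rw [hspan]; trivial
    induction hv using Submodule.span_induction with
    | mem x hx => exact hb0 x hx
    | zero => exact map_zero φ
    | add x y _ _ hx hy => rw [map_add, hx, hy, add_zero]
    | smul a x _ hx => rw [map_smul, hx, smul_zero]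
  funext i
  have h1 := hall (e i)
  rw [hφe] at h1
  exact_mod_cast h1

end Run7.h467.GA
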