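import Pool.Agent.Run7.h467.GA.Dim
import Pool.Agent.Run7.h467.GA.Piv

/-! Good rational approximations: tuples of independent small integral combinations of the entries. -/

set_option autoImplicit false

open Finset Filter Topology MeasureTheory

namespace Run7.h467.GA

open scoped ENNReal NNReal

/-- The approximations `(p, q)` of `α` with `|α_i - p_i / q| ≤ c q ^ (-1-σ)` for which a tuple in `P` is at distance at most
`c q ^ θ` from the tuple of the values at `(q, p)` of independent integral linear forms with coefficients at most `c q ^ η`. -/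
def TBad {d k : ℕ} (P : Set (Fin k → ℕ)) (σ η θ c : ℝ) (α : Fin d → ℝ) : Set ((Fin d → ℤ) × ℕ) :=
  {z | 1 ≤ z.2 ∧ (∀ i, |α i - z.1 i / z.2| ≤ c / (z.2 : ℝ) ^ (1 + σ)) ∧
    ∃ U : Fin k → Fin (d + 1) → ℤ, Indep U ∧ (∀ j i, |(U j i : ℝ)| ≤ c * (z.2 : ℝ) ^ η) ∧
      ∃ s ∈ P, ∀ j, |(s j : ℝ) - ((∑ i, U j i * (Fin.cons (z.2 : ℤ) z.1 : Fin (d + 1) → ℤ) i : ℤ) : ℝ)| ≤
        c * (z.2 : ℝ) ^ θ}

open Classical in
/-- the solution of the linear system with given entries at some places, if it is unique -/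
noncomputable def sol {n k m : ℕ} (z : (Fin m → Fin n) × (Fin m → ℤ) × (Fin k → Fin n → ℤ) × (Fin k → ℤ) ×
    (Fin k → ℕ)) : Fin n → ℤ :=
  if h : ∃ x : Fin n → ℤ, (∀ i, x (z.1 i) = z.2.1 i) ∧ (∀ j, ∑ i, z.2.2.1 j i * x i = z.2.2.2.2 j - z.2.2.2.1 j)
  then h.choose else 0

lemma sol_eq {n k m : ℕ} (J : Fin m → Fin n) (U : Fin k → Fin n → ℤ)
    (hJ : ∀ z : Fin n → ℤ, (∀ i, z (J i) = 0) → (∀ j, ∑ i, U j i * z i = 0) → z = 0) (x : Fin n → ℤ) (s : Fin k → ℕ) :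
    sol (J, (fun i => x (J i)), U, (fun j => (s j : ℤ) - ∑ i, U j i * x i), s) = x := by
  have h : ∃ x' : Fin n → ℤ, (∀ i, x' (J i) = x (J i)) ∧
      (∀ j, ∑ i, U j i * x' i = (s j : ℤ) - ((s j : ℤ) - ∑ i, U j i * x i)) :=
    ⟨x, fun _ => rfl, fun j => by ring⟩
  unfold sol
  rw [dif_pos h]
  have h1 := h.choose_spec
  have h2 : h.choose - x = 0 := by
    apply hJ
    · intro i
      rw [Pi.sub_apply, h1.1 i, sub_self]
    · intro j
      have h3 := h1.2 j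
      simp only [Pi.sub_apply, mul_sub, Finset.sum_sub_distrib]
      rw [h3]
      ring
  exact sub_eq_zero.1 h2

theorem tup_bounded {d k : ℕ} (hk : k ≤ d + 1) (P : Set (Fin k → ℕ)) {ρ σ η θ D : ℝ} (hρ : 0 ≤ ρ) (hσ : 0 ≤ σ)
    (hη : 0 ≤ η) (hθ : 0 ≤ θ) (hθ1 : θ ≤ 1)
    (hD : d + 1 - k + (1 + η) * ρ + k * (d + 1) * η + k * θ < D * (1 + σ)) (C : ℝ) (hC : 0 ≤ C)
    (hP : ∀ X : ℝ, 1 ≤ X → {s | s ∈ P ∧ ∀ j, (s j : ℝ) ≤ X}.Finite ∧
      ({s | s ∈ P ∧ ∀ j, (s j : ℝ) ≤ X}.ncard : ℝ) ≤ C * X ^ ρ)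
    (K : ℕ) (hK : 1 ≤ K) :
    dimH {α : Fin d → ℝ | (∀ i, |α i| ≤ K) ∧ ∀ n : ℕ, ∃ z ∈ TBad P σ η θ K α, n ≤ z.2} ≤ ENNReal.ofReal D := by
  obtain ⟨m, hm⟩ : ∃ m : ℕ, m = d + 1 - k := ⟨_, rfl⟩
  have hmr : (m : ℝ) = d + 1 - k := by
    rw [hm, Nat.cast_sub hk]
    push_cast
    ring
  rw [← hmr] at hD
  have hK' : (1 : ℝ) ≤ K := by exact_mod_cast hK
  have hK0 : (0 : ℝ) < K := by linarith
  have h1σ : 0 < 1 + σ := by linarith
  have he0 : 0 ≤ m + (1 + η) * ρ + k * (d + 1) * η + k * θ := by positivity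
  have hD0 : 0 < D := by
    have h1 : 0 < D * (1 + σ) := lt_of_le_of_lt he0 hD
    exact (pos_iff_pos_of_mul_pos h1).2 h1σ
  set Q : ℕ → ℝ := fun j => (2 : ℝ) ^ (j + 1) with hQ
  have hQ1 : ∀ j, 1 ≤ Q j := fun j => one_le_pow₀ (by norm_num)
  have hQ0 : ∀ j, 0 < Q j := fun j => lt_of_lt_of_le one_pos (hQ1 j)
  set M : ℝ := 2 * K ^ 2 * (d + 1) + K with hM
  have hM1 : 1 ≤ M := by
    rw [hM]
    have : (0 : ℝ) ≤ 2 * K ^ 2 * (d + 1) := by positivity
    linarith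
  have hX : ∀ j : ℕ, 1 ≤ M * Q j ^ (1 + η) := fun j =>
    one_le_mul_of_one_le_of_one_le hM1 (Real.one_le_rpow (hQ1 j) (by linarith))
  set N : ℕ → Finset ((Fin m → Fin (d + 1)) × (Fin m → ℤ) × (Fin k → Fin (d + 1) → ℤ) × (Fin k → ℤ) ×
    (Fin k → ℕ)) := fun j =>
    (univ : Finset (Fin m → Fin (d + 1))) ×ˢ (Fintype.piFinset fun _ : Fin m =>
        Icc (-((⌊2 * K * Q j⌋₊ : ℕ) : ℤ)) ((⌊2 * K * Q j⌋₊ : ℕ) : ℤ)) ×ˢ
      (Fintype.piFinset fun _ : Fin k => Fintype.piFinset fun _ : Fin (d + 1) =>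
        Icc (-((⌊K * Q j ^ η⌋₊ : ℕ) : ℤ)) ((⌊K * Q j ^ η⌋₊ : ℕ) : ℤ)) ×ˢ
      (Fintype.piFinset fun _ : Fin k =>
        Icc (-((⌊K * Q j ^ θ⌋₊ : ℕ) : ℤ)) ((⌊K * Q j ^ θ⌋₊ : ℕ) : ℤ)) ×ˢ
      (hP (M * Q j ^ (1 + η)) (hX j)).1.toFinset with hN
  set r : ℕ → ℝ := fun j => K * (Q j / 2) ^ (-(1 + σ)) with hr
  have hr0 : ∀ j, 0 < r j := fun j => mul_pos hK0 (Real.rpow_pos_of_pos (by have := hQ0 j; positivity) _)
  have hQt : Tendsto Q atTop atTop :=
    (tendsto_pow_atTop_atTop_of_one_lt (by norm_num : (1 : ℝ) < 2)).comp (tendsto_add_atTop_nat 1)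
  have hrt : Tendsto r atTop (𝓝 0) := by
    have h1 : Tendsto (fun j => Q j / 2) atTop atTop := hQt.atTop_div_const two_pos
    have h2 := ((tendsto_rpow_neg_atTop h1σ).comp h1).const_mul (K : ℝ)
    rw [mul_zero] at h2
    exact h2
  set e : ℝ := m + (1 + η) * ρ + k * (d + 1) * η + k * θ with he
  set A : ℝ := (d + 1) ^ m * (6 * K) ^ m * ((3 * K) ^ (d + 1)) ^ k * (3 * K) ^ k * (C * M ^ ρ) *
    (2 * (K * (2 : ℝ) ^ (1 + σ))) ^ D with hA
  set w : ℕ → ℝ := fun j => A * (Q j) ^ (e - (1 + σ) * D) with hw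
  have hA0 : 0 ≤ A := by positivity
  have hwsum : Summable w := by
    apply Summable.mul_left
    have h1 : ∀ j : ℕ, (Q j) ^ (e - (1 + σ) * D) =
        (2 : ℝ) ^ (e - (1 + σ) * D) * ((2 : ℝ) ^ (e - (1 + σ) * D)) ^ j := by
      intro j
      rw [hQ]
      simp only
      rw [← Real.rpow_natCast, ← Real.rpow_mul two_pos.le, mul_comm ((j + 1 : ℕ) : ℝ), Real.rpow_mul two_pos.le,
        Real.rpow_natCast, pow_succ, mul_comm]
    simp only [h1]
    apply Summable.mul_left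
    apply summable_geometric_of_lt_one (Real.rpow_nonneg two_pos.le _)
    apply Real.rpow_lt_one_of_one_lt_of_neg (by norm_num)
    linarith
  refine dim_cover N (fun _ z => fun i => ((sol z (Fin.succ i) : ℤ) : ℝ) / ((sol z 0 : ℤ) : ℝ)) r hr0 hrt D hD0 w hwsum
    ?_ _ ?_
  · intro j
    have hq := hQ0 j
    have hq1 := hQ1 j
    have hcS : (((hP (M * Q j ^ (1 + η)) (hX j)).1.toFinset.card : ℕ) : ℝ) =
        ({s | s ∈ P ∧ ∀ l, (s l : ℝ) ≤ M * Q j ^ (1 + η)}.ncard : ℝ) := by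
      exact_mod_cast (Set.ncard_eq_toFinset_card _ (hP (M * Q j ^ (1 + η)) (hX j)).1).symm
    have hc : ((N j).card : ℝ) = (d + 1) ^ m * ((2 * (⌊2 * K * Q j⌋₊ : ℝ) + 1) ^ m *
        (((2 * (⌊K * Q j ^ η⌋₊ : ℝ) + 1) ^ (d + 1)) ^ k * ((2 * (⌊K * Q j ^ θ⌋₊ : ℝ) + 1) ^ k *
          ({s | s ∈ P ∧ ∀ l, (s l : ℝ) ≤ M * Q j ^ (1 + η)}.ncard : ℝ)))) := by
      rw [hN]
      simp only [Finset.card_product, Nat.cast_mul]
      rw [card_box, card_box, hcS, Fintype.card_piFinset (fun _ : Fin k => Fintype.piFinset fun _ : Fin (d + 1) =>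
        Icc (-((⌊K * Q j ^ η⌋₊ : ℕ) : ℤ)) ((⌊K * Q j ^ η⌋₊ : ℕ) : ℤ))]
      simp only [Finset.card_univ, Fintype.card_fin, Fintype.card_fun, Finset.prod_const, Nat.cast_pow, card_box]
      push_cast
      ring
    have b1 : 2 * (⌊2 * K * Q j⌋₊ : ℝ) + 1 ≤ 6 * K * Q j := by
      have h1 : 1 ≤ 2 * K * Q j := by nlinarith
      have := floor_bound h1
      linarith
    have hκ1 : 1 ≤ Q j ^ η := Real.one_le_rpow hq1 hη
    have hθ2 : 1 ≤ Q j ^ θ := Real.one_le_rpow hq1 hθ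
    have b2 : 2 * (⌊K * Q j ^ η⌋₊ : ℝ) + 1 ≤ 3 * K * Q j ^ η := by
      have h1 : 1 ≤ K * Q j ^ η := one_le_mul_of_one_le_of_one_le hK' hκ1
      have := floor_bound h1
      linarith
    have b3 : 2 * (⌊K * Q j ^ θ⌋₊ : ℝ) + 1 ≤ 3 * K * Q j ^ θ := by
      have h0 : 1 ≤ K * Q j ^ θ := one_le_mul_of_one_le_of_one_le hK' hθ2
      have := floor_bound h0
      linarith
    have b4 := (hP (M * Q j ^ (1 + η)) (hX j)).2
    have b5 : (M * Q j ^ (1 + η)) ^ ρ = M ^ ρ * Q j ^ ((1 + η) * ρ) := by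
      rw [Real.mul_rpow (by linarith) (Real.rpow_nonneg hq.le _), ← Real.rpow_mul hq.le]
    rw [b5, ← mul_assoc] at b4
    have hcard : ((N j).card : ℝ) ≤ (d + 1) ^ m * ((6 * K * Q j) ^ m * (((3 * K * Q j ^ η) ^ (d + 1)) ^ k *
        ((3 * K * Q j ^ θ) ^ k * (C * M ^ ρ * Q j ^ ((1 + η) * ρ))))) := by
      rw [hc]
      gcongr
    have hrad : (2 * r j) ^ D = (2 * (K * (2 : ℝ) ^ (1 + σ))) ^ D * Q j ^ (-((1 + σ) * D)) := by
      rw [hr]
      simp only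
      rw [Real.div_rpow hq.le two_pos.le, Real.rpow_neg two_pos.le, div_inv_eq_mul]
      have : 2 * (K * (Q j ^ (-(1 + σ)) * (2 : ℝ) ^ (1 + σ))) =
          (2 * (K * (2 : ℝ) ^ (1 + σ))) * Q j ^ (-(1 + σ)) := by ring
      rw [this, Real.mul_rpow (by positivity) (by positivity), ← Real.rpow_mul hq.le]
      congr 2
      ring
    have hsplit : Q j ^ (e - (1 + σ) * D) = Q j ^ m * (((Q j ^ η) ^ (d + 1)) ^ k * ((Q j ^ θ) ^ k *
        Q j ^ ((1 + η) * ρ))) * Q j ^ (-((1 + σ) * D)) := by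
      rw [← Real.rpow_natCast (Q j), ← Real.rpow_natCast (Q j ^ η), ← Real.rpow_mul hq.le,
        ← Real.rpow_natCast (Q j ^ (η * ((d + 1 : ℕ) : ℝ))), ← Real.rpow_mul hq.le,
        ← Real.rpow_natCast (Q j ^ θ), ← Real.rpow_mul hq.le, ← Real.rpow_add hq,
        ← Real.rpow_add hq, ← Real.rpow_add hq, ← Real.rpow_add hq]
      congr 1
      rw [he]
      push_cast
      ring
    calc ((N j).card : ℝ) * (2 * r j) ^ D
        ≤ ((d + 1) ^ m * ((6 * K * Q j) ^ m * (((3 * K * Q j ^ η) ^ (d + 1)) ^ k *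
        ((3 * K * Q j ^ θ) ^ k * (C * M ^ ρ * Q j ^ ((1 + η) * ρ)))))) * (2 * r j) ^ D :=
          mul_le_mul_of_nonneg_right hcard (Real.rpow_nonneg (by have := hr0 j; positivity) _)
      _ = w j := by
          rw [hw]
          simp only
          rw [hsplit, hrad, hA, mul_pow (6 * (K : ℝ)) (Q j) m, mul_pow (3 * (K : ℝ)) (Q j ^ η) (d + 1),
            mul_pow ((3 * (K : ℝ)) ^ (d + 1)) ((Q j ^ η) ^ (d + 1)) k, mul_pow (3 * (K : ℝ)) (Q j ^ θ) k]
          ring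
  · rintro α ⟨hα, hinf⟩ n
    obtain ⟨⟨p, q⟩, hz, hq⟩ := hinf (2 ^ n)
    obtain ⟨hq1, happ, U, hU, hUb', s, hs, hm'⟩ := hz
    simp only at hq1 happ hUb' hm' hq
    refine ⟨Nat.log 2 q, Nat.le_log_of_pow_le (by norm_num) hq, ?_⟩
    set j := Nat.log 2 q with hj
    have hqr1 : (1 : ℝ) ≤ q := by exact_mod_cast hq1
    have hqr0 : (0 : ℝ) < q := by linarith
    have hjq : (2 : ℝ) ^ j ≤ q := by exact_mod_cast Nat.pow_log_le_self 2 (by omega)
    have hqj : (q : ℝ) ≤ Q j := by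
      have h1 : q ≤ 2 ^ (j + 1) := (Nat.lt_pow_succ_log_self (b := 2) (by norm_num) q).le
      have h2 : (q : ℝ) ≤ (2 : ℝ) ^ (j + 1) := by exact_mod_cast h1
      exact h2
    have hq2 : Q j / 2 ≤ q := by
      rw [hQ]
      simp only
      rw [pow_succ]
      linarith
    have hqp := hQ0 j
    have hκq : (q : ℝ) ^ η ≤ Q j ^ η := Real.rpow_le_rpow hqr0.le hqj hη
    have hθq : (q : ℝ) ^ θ ≤ Q j ^ θ := Real.rpow_le_rpow hqr0.le hqj hθ
    set x : Fin (d + 1) → ℤ := Fin.cons (q : ℤ) p with hx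
    have hxb : ∀ i, |(x i : ℝ)| ≤ 2 * K * Q j := by
      intro i
      refine Fin.cases ?_ (fun k => ?_) i
      · rw [hx, Fin.cons_zero]
        rw [Int.cast_natCast, abs_of_pos hqr0]
        nlinarith
      · rw [hx, Fin.cons_succ]
        have h1 := happ k
        have h2 := hα k
        have h3 : (K : ℝ) / (q : ℝ) ^ (1 + σ) ≤ K := by
          apply div_le_self hK0.le
          exact Real.one_le_rpow hqr1 (by linarith)
        have h4 : |(p k : ℝ) / q| ≤ 2 * K := by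
          have : (p k : ℝ) / q = α k - (α k - (p k : ℝ) / q) := by ring
          rw [this]
          exact (abs_sub _ _).trans (by linarith)
        rw [abs_div, abs_of_pos hqr0, div_le_iff₀ hqr0] at h4
        refine h4.trans ?_
        exact mul_le_mul_of_nonneg_left hqj (by positivity)
    have hUb : ∀ l i, |(U l i : ℝ)| ≤ K * Q j ^ η := fun l i =>
      (hUb' l i).trans (mul_le_mul_of_nonneg_left hκq hK0.le)
    obtain ⟨-, J, hJ⟩ := pivots U hU
    have hmk : m = d + 1 - k := hm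
    subst hmk
    have hm2 : ∀ l, |(s l : ℝ) - ((∑ i, U l i * x i : ℤ) : ℝ)| ≤ K * Q j ^ θ := fun l =>
      (hm' l).trans (mul_le_mul_of_nonneg_left hθq hK0.le)
    have hform : ∀ l, |((∑ i, U l i * x i : ℤ) : ℝ)| ≤ (d + 1) * ((K * Q j ^ η) * (2 * K * Q j)) := by
      intro l
      push_cast
      refine (Finset.abs_sum_le_sum_abs _ _).trans ?_
      calc (∑ i : Fin (d + 1), |(U l i : ℝ) * (x i : ℝ)|)
          ≤ ∑ _i : Fin (d + 1), ((K * Q j ^ η) * (2 * K * Q j)) := by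
            apply Finset.sum_le_sum
            intro i _
            rw [abs_mul]
            exact mul_le_mul (hUb l i) (hxb i) (abs_nonneg _) (by positivity)
        _ = (d + 1) * ((K * Q j ^ η) * (2 * K * Q j)) := by
            rw [Finset.sum_const, Finset.card_univ, Fintype.card_fin, nsmul_eq_mul]
            push_cast
            ring
    have hsb : ∀ l, (s l : ℝ) ≤ M * Q j ^ (1 + η) := by
      intro l
      have h1 : Q j ^ (1 + η) = Q j * Q j ^ η := by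
        rw [Real.rpow_add hqp, Real.rpow_one]
      have h2 : Q j ^ θ ≤ Q j ^ (1 + η) := Real.rpow_le_rpow_of_exponent_le (hQ1 j) (by linarith)
      have h3 := (abs_le.1 (hm2 l)).2
      have h4 := (abs_le.1 (hform l)).2
      have h5 : (K : ℝ) * Q j ^ θ ≤ K * Q j ^ (1 + η) := mul_le_mul_of_nonneg_left h2 hK0.le
      have h6 : ((d : ℝ) + 1) * ((K * Q j ^ η) * (2 * K * Q j)) = 2 * K ^ 2 * (d + 1) * Q j ^ (1 + η) := by
        rw [h1]
        ring
      rw [h6] at h4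
      rw [hM, add_mul]
      linarith
    refine ⟨(J, (fun i => x (J i)), U, (fun l => (s l : ℤ) - ∑ i, U l i * x i), s), ?_, ?_⟩
    · rw [hN]
      simp only [Finset.mem_product, Finset.mem_univ, true_and, Fintype.mem_piFinset, Set.Finite.mem_toFinset,
        Set.mem_ofPred_eq]
      refine ⟨fun i => mem_icc_floor (hxb _), fun l i => mem_icc_floor (hUb l i), fun l => mem_icc_floor ?_, hs, hsb⟩
      have := hm2 l
      rw [Int.cast_sub, Int.cast_natCast]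
      exact this
    · rw [sol_eq J U hJ x s]
      rw [edist_pi_le_iff]
      intro i
      rw [edist_dist, Real.dist_eq]
      apply ENNReal.ofReal_le_ofReal
      rw [hx]
      simp only [Fin.cons_succ, Fin.cons_zero, Int.cast_natCast]
      refine (happ i).trans ?_
      rw [hr]
      simp only
      rw [div_eq_mul_inv, ← Real.rpow_neg hqr0.le]
      apply mul_le_mul_of_nonneg_left _ hK0.le
      exact Real.rpow_le_rpow_of_nonpos (by positivity) hq2 (by linarith)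

end Run7.h467.GA
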